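import Pool.Agent.helper84.VN.Spec4n
import Pool.Agent.helper61.VN.LFK

/-!
# Project VN (MP_07c750_an), row FN4: the fields of a negatively curved metric
-/

set_option autoImplicit false

open scoped MatrixGroups ContDiff Topology UpperHalfPlane ComplexConjugate ENNReal
open UpperHalfPlane MeasureTheory Filter Set

namespace Pool.Agent.VN

open Pool.Agent.RS Pool.Agent.VQ
open Pool.Agent.VQE (nm)

noncomputable section

theorem FN4_nm0 (x : SL(2, ℝ)) : 0 ≤ nm x := (abs_nonneg _).trans (FE4_nm x).1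

theorem FN4_nmle (x : SL(2, ℝ)) (r : ℝ) (h00 : |x.1 0 0 - 1| ≤ r) (h01 : |x.1 0 1| ≤ r) (h10 : |x.1 1 0| ≤ r) (h11 : |x.1 1 1 - 1| ≤ r) : nm x ≤ r := by
  unfold nm
  exact max_le (max_le h00 h01) (max_le h10 h11)

/-- bounded and globally Lipschitz functions -/
def FN4_G (Γ : Subgroup SL(2, ℝ)) (k : ℝ) (B : ℕ → ℝ) (f : (ℍ → ℝ) → ℝ → SL(2, ℝ) → ℝ) : Prop :=
  ∃ C : ℝ, 0 ≤ C ∧ ∀ U, PotN Γ k B U → (∀ (E : ℝ) (g : SL(2, ℝ)), |E| ≤ k → |f U E g| ≤ C) ∧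
    ∀ (E E' : ℝ) (g y : SL(2, ℝ)), |E| ≤ k → |E'| ≤ k → |f U E' (g * y) - f U E g| ≤ C * (nm y + |E' - E|)

theorem FN4_glob {Γ : Subgroup SL(2, ℝ)} {k : ℝ} {B : ℕ → ℝ} {f : (ℍ → ℝ) → ℝ → SL(2, ℝ) → ℝ} (h : LFK_L Γ k B f) : FN4_G Γ k B f := by
  obtain ⟨C, hC, h⟩ := h
  refine ⟨21 * C, by positivity, fun U hU => ⟨fun E g hE => ?_, fun E E' g y hE hE' => ?_⟩⟩
  · have := (h U hU).1 E g hE
    linarith
  · have h0 := FN4_nm0 y
    have h1 := abs_nonneg (E' - E)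
    have h2 : 0 ≤ C * |E' - E| := by positivity
    have h3 : 0 ≤ C * nm y := by positivity
    rcases le_or_gt (nm y) (1 / 10) with hy | hy
    · have := (h U hU).2 E E' g y hE hE' hy
      nlinarith
    · have a1 := (h U hU).1 E' (g * y) hE'
      have a2 := (h U hU).1 E g hE
      have a3 : |f U E' (g * y) - f U E g| ≤ 2 * C := by
        rw [abs_le] at a1 a2 ⊢
        constructor <;> linarith [a1.1, a1.2, a2.1, a2.2]
      have a4 : C * (1 / 10) ≤ C * nm y := mul_le_mul_of_nonneg_left hy.le hC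
      nlinarith

/-! ## one-parameter groups -/

theorem FN4_nMe (s : ℝ) : (nM s).1 0 0 = 1 ∧ (nM s).1 0 1 = s ∧ (nM s).1 1 0 = 0 ∧ (nM s).1 1 1 = 1 := ⟨rfl, rfl, rfl, rfl⟩
theorem FN4_lMe (s : ℝ) : (lM s).1 0 0 = 1 ∧ (lM s).1 0 1 = 0 ∧ (lM s).1 1 0 = s ∧ (lM s).1 1 1 = 1 := ⟨rfl, rfl, rfl, rfl⟩
theorem FN4_aMe (s : ℝ) : (aM s).1 0 0 = Real.exp (s / 2) ∧ (aM s).1 0 1 = 0 ∧ (aM s).1 1 0 = 0 ∧ (aM s).1 1 1 = Real.exp (-(s / 2)) := ⟨rfl, rfl, rfl, rfl⟩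

theorem FN4_mul (D E : SL(2, ℝ)) (i j : Fin 2) : (D * E).1 i j = D.1 i 0 * E.1 0 j + D.1 i 1 * E.1 1 j := by
  have h : (D * E).1 = D.1 * E.1 := rfl
  rw [h, Matrix.mul_apply, Fin.sum_univ_two]

theorem FN4_one : (1 : SL(2, ℝ)).1 0 0 = 1 ∧ (1 : SL(2, ℝ)).1 0 1 = 0 ∧ (1 : SL(2, ℝ)).1 1 0 = 0 ∧ (1 : SL(2, ℝ)).1 1 1 = 1 := by
  have h : (1 : SL(2, ℝ)).1 = 1 := rfl
  rw [h]
  refine ⟨?_, ?_, ?_, ?_⟩ <;> simp

theorem FN4_ext (x y : SL(2, ℝ)) (h00 : x.1 0 0 = y.1 0 0) (h01 : x.1 0 1 = y.1 0 1) (h10 : x.1 1 0 = y.1 1 0) (h11 : x.1 1 1 = y.1 1 1) : x = y := by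
  apply Subtype.ext
  ext i j
  fin_cases i <;> fin_cases j
  · exact h00
  · exact h01
  · exact h10
  · exact h11

theorem FN4_n0 : nM 0 = 1 := FN4_ext _ _ (by rw [(FN4_nMe 0).1, FN4_one.1]) (by rw [(FN4_nMe 0).2.1, FN4_one.2.1]) (by rw [(FN4_nMe 0).2.2.1, FN4_one.2.2.1]) (by rw [(FN4_nMe 0).2.2.2, FN4_one.2.2.2])
theorem FN4_l0 : lM 0 = 1 := FN4_ext _ _ (by rw [(FN4_lMe 0).1, FN4_one.1]) (by rw [(FN4_lMe 0).2.1, FN4_one.2.1]) (by rw [(FN4_lMe 0).2.2.1, FN4_one.2.2.1]) (by rw [(FN4_lMe 0).2.2.2, FN4_one.2.2.2])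
theorem FN4_a0 : aM 0 = 1 := FN4_ext _ _ (by rw [(FN4_aMe 0).1, FN4_one.1]; simp) (by rw [(FN4_aMe 0).2.1, FN4_one.2.1]) (by rw [(FN4_aMe 0).2.2.1, FN4_one.2.2.1]) (by rw [(FN4_aMe 0).2.2.2, FN4_one.2.2.2]; simp)

theorem FN4_nn (s : ℝ) : nm (nM s) ≤ 2 * |s| := by
  obtain ⟨h00, h01, h10, h11⟩ := FN4_nMe s
  have := abs_nonneg s
  refine FN4_nmle _ _ ?_ ?_ ?_ ?_
  · rw [h00, sub_self, abs_zero]; linarith
  · rw [h01]; linarith
  · rw [h10, abs_zero]; linarith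
  · rw [h11, sub_self, abs_zero]; linarith

theorem FN4_nl (s : ℝ) : nm (lM s) ≤ 2 * |s| := by
  obtain ⟨h00, h01, h10, h11⟩ := FN4_lMe s
  have := abs_nonneg s
  refine FN4_nmle _ _ ?_ ?_ ?_ ?_
  · rw [h00, sub_self, abs_zero]; linarith
  · rw [h01, abs_zero]; linarith
  · rw [h10]; linarith
  · rw [h11, sub_self, abs_zero]; linarith

theorem FN4_na (s : ℝ) (hs : |s| ≤ 1) : nm (aM s) ≤ 2 * |s| := by
  obtain ⟨h00, h01, h10, h11⟩ := FN4_aMe s
  have := abs_nonneg s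
  have h2 : |s / 2| = |s| / 2 := by rw [abs_div, abs_of_pos (two_pos : (0 : ℝ) < 2)]
  refine FN4_nmle _ _ ?_ ?_ ?_ ?_
  · rw [h00]
    have := Real.abs_exp_sub_one_le (x := s / 2) (by rw [h2]; linarith)
    rw [h2] at this
    linarith
  · rw [h01, abs_zero]; linarith
  · rw [h10, abs_zero]; linarith
  · rw [h11]
    have := Real.abs_exp_sub_one_le (x := -(s / 2)) (by rw [abs_neg, h2]; linarith)
    rw [abs_neg, h2] at this
    linarith

theorem FN4_dn (h : SL(2, ℝ)) (t : ℝ) (i j : Fin 2) : HasDerivAt (fun s => (h * nM s).1 i j) (((h * nM t).1 * !![(0 : ℝ) / 2, 1; 0, -(0 / 2)]) i j) t := by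
  have e0 : ∀ s, (h * nM s).1 i 0 = h.1 i 0 := fun s => by
    rw [FN4_mul, (FN4_nMe s).1, (FN4_nMe s).2.2.1]; ring
  have e1 : ∀ s, (h * nM s).1 i 1 = h.1 i 0 * s + h.1 i 1 := fun s => by
    rw [FN4_mul, (FN4_nMe s).2.1, (FN4_nMe s).2.2.2]; ring
  rw [Matrix.mul_apply, Fin.sum_univ_two, e0, e1]
  fin_cases j
  · simp only [Fin.zero_eta, e0, Matrix.of_apply, Matrix.cons_val', Matrix.cons_val_zero, Matrix.cons_val_one, Matrix.cons_val_fin_one]
    rw [zero_div, mul_zero, mul_zero, add_zero]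
    exact hasDerivAt_const _ _
  · simp only [Fin.mk_one, e1, Matrix.of_apply, Matrix.cons_val', Matrix.cons_val_zero, Matrix.cons_val_one, Matrix.cons_val_fin_one]
    have := ((hasDerivAt_id t).const_mul (h.1 i 0)).add_const (h.1 i 1)
    rw [mul_one] at this
    rw [zero_div, neg_zero, mul_zero, add_zero, mul_one]
    exact this

theorem FN4_dl (h : SL(2, ℝ)) (t : ℝ) (i j : Fin 2) : HasDerivAt (fun s => (h * lM s).1 i j) (((h * lM t).1 * !![(0 : ℝ) / 2, 0; 1, -(0 / 2)]) i j) t := by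
  have e0 : ∀ s, (h * lM s).1 i 0 = h.1 i 1 * s + h.1 i 0 := fun s => by
    rw [FN4_mul, (FN4_lMe s).1, (FN4_lMe s).2.2.1]; ring
  have e1 : ∀ s, (h * lM s).1 i 1 = h.1 i 1 := fun s => by
    rw [FN4_mul, (FN4_lMe s).2.1, (FN4_lMe s).2.2.2]; ring
  rw [Matrix.mul_apply, Fin.sum_univ_two, e0, e1]
  fin_cases j
  · simp only [Fin.zero_eta, e0, Matrix.of_apply, Matrix.cons_val', Matrix.cons_val_zero, Matrix.cons_val_one, Matrix.cons_val_fin_one]
    have := ((hasDerivAt_id t).const_mul (h.1 i 1)).add_const (h.1 i 0)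
    rw [mul_one] at this
    rw [zero_div, mul_zero, zero_add, mul_one]
    exact this
  · simp only [Fin.mk_one, e1, Matrix.of_apply, Matrix.cons_val', Matrix.cons_val_zero, Matrix.cons_val_one, Matrix.cons_val_fin_one]
    rw [zero_div, neg_zero, mul_zero, mul_zero, add_zero]
    exact hasDerivAt_const _ _

theorem FN4_da (h : SL(2, ℝ)) (t : ℝ) (i j : Fin 2) : HasDerivAt (fun s => (h * aM s).1 i j) (((h * aM t).1 * !![(1 : ℝ) / 2, 0; 0, -(1 / 2)]) i j) t := by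
  have e0 : ∀ s, (h * aM s).1 i 0 = h.1 i 0 * Real.exp (s / 2) := fun s => by
    rw [FN4_mul, (FN4_aMe s).1, (FN4_aMe s).2.2.1]; ring
  have e1 : ∀ s, (h * aM s).1 i 1 = h.1 i 1 * Real.exp (-(s / 2)) := fun s => by
    rw [FN4_mul, (FN4_aMe s).2.1, (FN4_aMe s).2.2.2]; ring
  rw [Matrix.mul_apply, Fin.sum_univ_two, e0, e1]
  have d0 : HasDerivAt (fun s : ℝ => s / 2) (1 / 2) t := (hasDerivAt_id t).div_const 2
  fin_cases j
  · simp only [Fin.zero_eta, e0, Matrix.of_apply, Matrix.cons_val', Matrix.cons_val_zero, Matrix.cons_val_one, Matrix.cons_val_fin_one]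
    have := d0.exp.const_mul (h.1 i 0)
    rw [← mul_assoc] at this
    rw [mul_zero, add_zero]
    exact this
  · simp only [Fin.mk_one, e1, Matrix.of_apply, Matrix.cons_val', Matrix.cons_val_zero, Matrix.cons_val_one, Matrix.cons_val_fin_one]
    have := d0.neg.exp.const_mul (h.1 i 1)
    rw [← mul_assoc] at this
    rw [mul_zero, zero_add]
    exact this

/-- the Taylor formula along a one-parameter group -/
theorem FN4_seg (f F' : SL(2, ℝ) → ℝ) (e : ℝ → SL(2, ℝ)) (M : ℝ) (hM : 0 ≤ M) (h : SL(2, ℝ)) (he0 : e 0 = 1) (hnm : ∀ s, |s| ≤ 1 → nm (e s) ≤ 2 * |s|)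
    (hd : ∀ s, HasDerivAt (fun s => f (h * e s)) (F' (h * e s)) s) (hL : ∀ g y, |F' (g * y) - F' g| ≤ M * nm y) (s : ℝ) (hs : |s| ≤ 1) :
    |f (h * e s) - f h - s * F' h| ≤ 2 * M * s ^ 2 := by
  have hφ : ∀ t : ℝ, HasDerivAt (fun t => f (h * e (t * s)) - t * (s * F' h)) (F' (h * e (t * s)) * s - s * F' h) t := by
    intro t
    have h1 : HasDerivAt (fun t : ℝ => t * s) s t := by simpa using (hasDerivAt_id t).mul_const s
    have h2 := (hd (t * s)).comp t h1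
    have h3 : HasDerivAt (fun t : ℝ => t * (s * F' h)) (s * F' h) t := by simpa using (hasDerivAt_id t).mul_const (s * F' h)
    exact h2.sub h3
  have hb : ∀ t ∈ Ico (0 : ℝ) 1, ‖F' (h * e (t * s)) * s - s * F' h‖ ≤ 2 * M * s ^ 2 := by
    intro t ht
    have e1 : F' (h * e (t * s)) * s - s * F' h = s * (F' (h * e (t * s)) - F' h) := by ring
    have ht1 : |t * s| ≤ |s| := by
      rw [abs_mul, abs_of_nonneg ht.1]
      exact mul_le_of_le_one_left (abs_nonneg s) ht.2.le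
    rw [e1, Real.norm_eq_abs, abs_mul]
    have h1 := hL h (e (t * s))
    have h2 := hnm (t * s) (ht1.trans hs)
    have h3 : M * nm (e (t * s)) ≤ M * (2 * |s|) := mul_le_mul_of_nonneg_left (by linarith) hM
    have h4 : |s| * |F' (h * e (t * s)) - F' h| ≤ |s| * (M * (2 * |s|)) := mul_le_mul_of_nonneg_left (h1.trans h3) (abs_nonneg s)
    have h5 : s ^ 2 = |s| * |s| := by rw [← sq, sq_abs]
    rw [h5]
    linarith
  have h1 := norm_image_sub_le_of_norm_deriv_le_segment_01' (fun t _ => (hφ t).hasDerivWithinAt) hb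
  simp only [zero_mul, one_mul, he0, mul_one, sub_zero] at h1
  rw [Real.norm_eq_abs] at h1
  rw [show f (h * e s) - f h - s * F' h = f (h * e s) - s * F' h - f h by ring]
  exact h1

theorem FN4_fac (x : SL(2, ℝ)) (hx : nm x ≤ 1 / 10) : ∃ β α γ : ℝ, x = nM β * aM α * lM γ ∧ |β| ≤ 2 * nm x ∧ |α| ≤ 3 * nm x ∧ |γ| ≤ 2 * nm x ∧
    |β - x.1 0 1| ≤ 2 * nm x ^ 2 ∧ |γ - x.1 1 0| ≤ 2 * nm x ^ 2 ∧ |α - (x.1 0 0 - x.1 1 1)| ≤ 3 * nm x ^ 2 := by
  obtain ⟨ha, hb, hc, hd⟩ := FE4_nm x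
  have hn0 := FN4_nm0 x
  have hdet : x.1 0 0 * x.1 1 1 - x.1 0 1 * x.1 1 0 = 1 := by
    have := x.2
    rw [Matrix.det_fin_two] at this
    exact this
  set a := x.1 0 0 with hadef
  set b := x.1 0 1 with hbdef
  set c := x.1 1 0 with hcdef
  set d := x.1 1 1 with hddef
  set ν := nm x with hν
  have hd' := abs_le.1 hd
  have hd1 : 9 / 10 ≤ d := by linarith [hd'.1]
  have hd2 : d ≤ 11 / 10 := by linarith [hd'.2]
  have hdp : 0 < d := by linarith
  have hinv : d⁻¹ ≤ 10 / 9 := by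
    rw [inv_le_comm₀ hdp (by norm_num)]
    linarith
  have hinv0 : 0 < d⁻¹ := inv_pos.2 hdp
  have hdi : d * d⁻¹ = 1 := mul_inv_cancel₀ hdp.ne'
  have hlog1 := Real.log_le_sub_one_of_pos hdp
  have hlog2 := Real.one_sub_inv_le_log_of_pos hdp
  have hbc : |b * c| ≤ ν ^ 2 := by
    rw [abs_mul, sq]
    exact mul_le_mul hb hc (abs_nonneg _) hn0
  have ht2 : (d - 1) ^ 2 ≤ ν ^ 2 := by
    rw [← sq_abs (d - 1)]
    exact pow_le_pow_left₀ (abs_nonneg _) hd 2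
  refine ⟨b * d⁻¹, -2 * Real.log d, c * d⁻¹, ?_, ?_, ?_, ?_, ?_, ?_, ?_⟩
  · have e1 : Real.exp (-2 * Real.log d / 2) = d⁻¹ := by
      rw [show -2 * Real.log d / 2 = -Real.log d by ring, Real.exp_neg, Real.exp_log hdp]
    have e2 : Real.exp (-(-2 * Real.log d / 2)) = d := by
      rw [show -(-2 * Real.log d / 2) = Real.log d by ring, Real.exp_log hdp]
    have m00 : (nM (b * d⁻¹) * aM (-2 * Real.log d)).1 0 0 = d⁻¹ := by
      rw [FN4_mul, (FN4_nMe _).1, (FN4_nMe _).2.1, (FN4_aMe _).1, (FN4_aMe _).2.2.1, e1]; ring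
    have m01 : (nM (b * d⁻¹) * aM (-2 * Real.log d)).1 0 1 = b := by
      rw [FN4_mul, (FN4_nMe _).1, (FN4_nMe _).2.1, (FN4_aMe _).2.1, (FN4_aMe _).2.2.2, e2]
      linear_combination b * hdi
    have m10 : (nM (b * d⁻¹) * aM (-2 * Real.log d)).1 1 0 = 0 := by
      rw [FN4_mul, (FN4_nMe _).2.2.1, (FN4_nMe _).2.2.2, (FN4_aMe _).1, (FN4_aMe _).2.2.1]; ring
    have m11 : (nM (b * d⁻¹) * aM (-2 * Real.log d)).1 1 1 = d := by
      rw [FN4_mul, (FN4_nMe _).2.2.1, (FN4_nMe _).2.2.2, (FN4_aMe _).2.1, (FN4_aMe _).2.2.2, e2]; ring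
    refine FN4_ext _ _ ?_ ?_ ?_ ?_
    · rw [FN4_mul, m00, m01, (FN4_lMe _).1, (FN4_lMe _).2.2.1]
      show a = _
      linear_combination (-a) * hdi + d⁻¹ * hdet
    · rw [FN4_mul, m00, m01, (FN4_lMe _).2.1, (FN4_lMe _).2.2.2]
      show b = _
      ring
    · rw [FN4_mul, m10, m11, (FN4_lMe _).1, (FN4_lMe _).2.2.1]
      show c = _
      linear_combination (-c) * hdi
    · rw [FN4_mul, m10, m11, (FN4_lMe _).2.1, (FN4_lMe _).2.2.2]
      show d = _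
      ring
  · rw [abs_mul, abs_of_pos hinv0]
    calc |b| * d⁻¹ ≤ ν * (10 / 9) := mul_le_mul hb hinv hinv0.le hn0
      _ ≤ 2 * ν := by linarith
  · have h1 : |Real.log d| ≤ 10 / 9 * ν := by
      rw [abs_le]
      constructor
      · have h2 : 1 - d⁻¹ = (d - 1) * d⁻¹ := by linear_combination -hdi
        have h3 : -(10 / 9 * ν) ≤ (d - 1) * d⁻¹ := by
          have h4 : |(d - 1) * d⁻¹| ≤ ν * (10 / 9) := by
            rw [abs_mul, abs_of_pos hinv0]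
            exact mul_le_mul hd hinv hinv0.le hn0
          have := (abs_le.1 h4).1
          linarith
        linarith
      · linarith [hd'.2]
    rw [abs_mul, show |(-2 : ℝ)| = 2 by norm_num]
    linarith
  · rw [abs_mul, abs_of_pos hinv0]
    calc |c| * d⁻¹ ≤ ν * (10 / 9) := mul_le_mul hc hinv hinv0.le hn0
      _ ≤ 2 * ν := by linarith
  · have e1 : b * d⁻¹ - b = -(b * (d - 1) * d⁻¹) := by linear_combination b * hdi
    rw [e1, abs_neg, abs_mul, abs_mul, abs_of_pos hinv0]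
    calc |b| * |d - 1| * d⁻¹ ≤ ν * ν * (10 / 9) := mul_le_mul (mul_le_mul hb hd (abs_nonneg _) hn0) hinv hinv0.le (mul_nonneg hn0 hn0)
      _ ≤ 2 * ν ^ 2 := by nlinarith [mul_nonneg hn0 hn0]
  · have e1 : c * d⁻¹ - c = -(c * (d - 1) * d⁻¹) := by linear_combination c * hdi
    rw [e1, abs_neg, abs_mul, abs_mul, abs_of_pos hinv0]
    calc |c| * |d - 1| * d⁻¹ ≤ ν * ν * (10 / 9) := mul_le_mul (mul_le_mul hc hd (abs_nonneg _) hn0) hinv hinv0.le (mul_nonneg hn0 hn0)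
      _ ≤ 2 * ν ^ 2 := by nlinarith [mul_nonneg hn0 hn0]
  · have ea : a - d = -2 * (d - 1) + (d - 1) ^ 2 * d⁻¹ + b * c * d⁻¹ := by
      linear_combination (-(a - 2 + d)) * hdi + d⁻¹ * hdet
    have e2 : 1 - d⁻¹ = (d - 1) - (d - 1) ^ 2 * d⁻¹ := by linear_combination (d - 2) * hdi
    have h1 : (d - 1) ^ 2 * d⁻¹ ≤ 10 / 9 * ν ^ 2 := by
      have := mul_le_mul ht2 hinv hinv0.le (sq_nonneg ν)
      linarith
    have h2 : |b * c * d⁻¹| ≤ 10 / 9 * ν ^ 2 := by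
      rw [abs_mul, abs_of_pos hinv0]
      have := mul_le_mul hbc hinv hinv0.le (sq_nonneg ν)
      linarith
    have h3 := abs_le.1 h2
    have h4 : 0 ≤ (d - 1) ^ 2 * d⁻¹ := by positivity
    have h5 : 0 ≤ ν ^ 2 := sq_nonneg ν
    rw [ea, abs_le]
    constructor
    · linarith [h3.1, h3.2]
    · linarith [h3.1, h3.2]

theorem FN4_tay {Γ : Subgroup SL(2, ℝ)} {k : ℝ} {B : ℕ → ℝ} {F A P Q : (ℍ → ℝ) → ℝ → SL(2, ℝ) → ℝ}
    (hF : LFK_L Γ k B F) (hA : LFK_L Γ k B A) (hP : LFK_L Γ k B P) (hQ : LFK_L Γ k B Q)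
    (hD : ∀ U, PotN Γ k B U → ∀ (γ : ℝ → SL(2, ℝ)) (t x b c E : ℝ), |E| ≤ k →
      (∀ i j, HasDerivAt (fun s => (γ s).1 i j) (((γ t).1 * !![x / 2, b; c, -(x / 2)]) i j) t) →
      HasDerivAt (fun s => F U E (γ s)) (A U E (γ t) * x + P U E (γ t) * b + Q U E (γ t) * c) t) :
    ∃ C : ℝ, 0 ≤ C ∧ ∀ U, PotN Γ k B U → ∀ (E E' : ℝ) (g x : SL(2, ℝ)), |E| ≤ k → |E'| ≤ k → nm x ≤ 1 / 10 →
      |F U E' (g * x) - F U E g - (A U E g * (x.1 0 0 - x.1 1 1) + P U E g * x.1 0 1 + Q U E g * x.1 1 0)| ≤ C * (nm x ^ 2 + |E' - E|) := by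
  obtain ⟨cF, hcF, hF⟩ := FN4_glob hF
  obtain ⟨cA, hcA, hA⟩ := FN4_glob hA
  obtain ⟨cP, hcP, hP⟩ := FN4_glob hP
  obtain ⟨cQ, hcQ, hQ⟩ := FN4_glob hQ
  set M : ℝ := cF + cA + cP + cQ with hM
  have hM0 : 0 ≤ M := by positivity
  refine ⟨100 * M, by positivity, fun U hU E E' g x hE hE' hx => ?_⟩
  have hlip : ∀ (G : (ℍ → ℝ) → ℝ → SL(2, ℝ) → ℝ) (c : ℝ), c ≤ M → (∀ (E E' : ℝ) (g y : SL(2, ℝ)), |E| ≤ k → |E'| ≤ k → |G U E' (g * y) - G U E g| ≤ c * (nm y + |E' - E|)) →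
      ∀ g y : SL(2, ℝ), |G U E (g * y) - G U E g| ≤ M * nm y := by
    intro G c hc h g y
    have h1 := h E E g y hE hE
    rw [sub_self, abs_zero, add_zero] at h1
    exact h1.trans (mul_le_mul_of_nonneg_right hc (FN4_nm0 y))
  have lA := hlip A cA (by linarith) (hA U hU).2
  have lP := hlip P cP (by linarith) (hP U hU).2
  have lQ := hlip Q cQ (by linarith) (hQ U hU).2
  have bA : |A U E g| ≤ M := ((hA U hU).1 E g hE).trans (by linarith)
  have bP : |P U E g| ≤ M := ((hP U hU).1 E g hE).trans (by linarith)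
  have bQ : |Q U E g| ≤ M := ((hQ U hU).1 E g hE).trans (by linarith)
  obtain ⟨β, α, γ, hfac, hβ, hα, hγ, hβ', hγ', hα'⟩ := FN4_fac x hx
  have hn0 := FN4_nm0 x
  set ν := nm x with hν
  have s1 := FN4_seg (F U E) (P U E) nM M hM0 g FN4_n0 (fun s _ => FN4_nn s) (fun s => by
    have := hD U hU (fun s => g * nM s) s 0 1 0 E hE (FN4_dn g s)
    simpa using this) lP β (by linarith)
  have s2 := FN4_seg (F U E) (A U E) aM M hM0 (g * nM β) FN4_a0 (fun s hs => FN4_na s hs) (fun s => by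
    have := hD U hU (fun s => g * nM β * aM s) s 1 0 0 E hE (FN4_da (g * nM β) s)
    simpa using this) lA α (by linarith)
  have s3 := FN4_seg (F U E) (Q U E) lM M hM0 (g * nM β * aM α) FN4_l0 (fun s _ => FN4_nl s) (fun s => by
    have := hD U hU (fun s => g * nM β * aM α * lM s) s 0 0 1 E hE (FN4_dl (g * nM β * aM α) s)
    simpa using this) lQ γ (by linarith)
  have e3 : g * nM β * aM α * lM γ = g * x := by
    rw [hfac]
    simp only [mul_assoc]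
  rw [e3] at s3
  have nβ := FN4_nn β
  have nα := FN4_na α (by linarith)
  have t1 : |A U E (g * nM β) - A U E g| ≤ M * (2 * |β|) := (lA g (nM β)).trans (mul_le_mul_of_nonneg_left nβ hM0)
  have t2 : |Q U E (g * nM β) - Q U E g| ≤ M * (2 * |β|) := (lQ g (nM β)).trans (mul_le_mul_of_nonneg_left nβ hM0)
  have t3 : |Q U E (g * nM β * aM α) - Q U E (g * nM β)| ≤ M * (2 * |α|) := (lQ (g * nM β) (aM α)).trans (mul_le_mul_of_nonneg_left nα hM0)
  have t4 : |F U E' (g * x) - F U E (g * x)| ≤ M * |E' - E| := by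
    have h1 := (hF U hU).2 E E' (g * x) 1 hE hE'
    have h2 : nm (1 : SL(2, ℝ)) = 0 := by
      refine le_antisymm (FN4_nmle _ _ ?_ ?_ ?_ ?_) (FN4_nm0 _)
      · rw [FN4_one.1, sub_self, abs_zero]
      · rw [FN4_one.2.1, abs_zero]
      · rw [FN4_one.2.2.1, abs_zero]
      · rw [FN4_one.2.2.2, sub_self, abs_zero]
    rw [mul_one, h2, zero_add] at h1
    exact h1.trans (mul_le_mul_of_nonneg_right (by linarith) (abs_nonneg _))
  -- products
  have pβ : β ^ 2 ≤ 4 * ν ^ 2 := by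
    rw [← sq_abs β]
    have := pow_le_pow_left₀ (abs_nonneg β) hβ 2
    linarith [this]
  have pα : α ^ 2 ≤ 9 * ν ^ 2 := by
    rw [← sq_abs α]
    have := pow_le_pow_left₀ (abs_nonneg α) hα 2
    linarith [this]
  have pγ : γ ^ 2 ≤ 4 * ν ^ 2 := by
    rw [← sq_abs γ]
    have := pow_le_pow_left₀ (abs_nonneg γ) hγ 2
    linarith [this]
  have q1 : |α * (A U E (g * nM β) - A U E g)| ≤ 12 * M * ν ^ 2 := by
    rw [abs_mul]
    calc |α| * |A U E (g * nM β) - A U E g| ≤ (3 * ν) * (M * (2 * (2 * ν))) :=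
          mul_le_mul hα (t1.trans (mul_le_mul_of_nonneg_left (by linarith) hM0)) (abs_nonneg _) (by positivity)
      _ = 12 * M * ν ^ 2 := by ring
  have q2 : |γ * (Q U E (g * nM β * aM α) - Q U E g)| ≤ 20 * M * ν ^ 2 := by
    rw [abs_mul]
    have h1 : |Q U E (g * nM β * aM α) - Q U E g| ≤ M * (2 * (2 * ν)) + M * (2 * (3 * ν)) := by
      have e : Q U E (g * nM β * aM α) - Q U E g = (Q U E (g * nM β) - Q U E g) + (Q U E (g * nM β * aM α) - Q U E (g * nM β)) := by ring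
      rw [e]
      refine (abs_add_le _ _).trans (add_le_add (t2.trans (mul_le_mul_of_nonneg_left (by linarith) hM0)) (t3.trans (mul_le_mul_of_nonneg_left (by linarith) hM0)))
    calc |γ| * |Q U E (g * nM β * aM α) - Q U E g| ≤ (2 * ν) * (M * (2 * (2 * ν)) + M * (2 * (3 * ν))) :=
          mul_le_mul hγ h1 (abs_nonneg _) (by positivity)
      _ = 20 * M * ν ^ 2 := by ring
  have q3 : |A U E g * (α - (x.1 0 0 - x.1 1 1))| ≤ M * (3 * ν ^ 2) := by
    rw [abs_mul]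
    exact mul_le_mul bA hα' (abs_nonneg _) hM0
  have q4 : |P U E g * (β - x.1 0 1)| ≤ M * (2 * ν ^ 2) := by
    rw [abs_mul]
    exact mul_le_mul bP hβ' (abs_nonneg _) hM0
  have q5 : |Q U E g * (γ - x.1 1 0)| ≤ M * (2 * ν ^ 2) := by
    rw [abs_mul]
    exact mul_le_mul bQ hγ' (abs_nonneg _) hM0
  have r1 : 2 * M * β ^ 2 ≤ 2 * M * (4 * ν ^ 2) := mul_le_mul_of_nonneg_left pβ (by positivity)
  have r2 : 2 * M * α ^ 2 ≤ 2 * M * (9 * ν ^ 2) := mul_le_mul_of_nonneg_left pα (by positivity)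
  have r3 : 2 * M * γ ^ 2 ≤ 2 * M * (4 * ν ^ 2) := mul_le_mul_of_nonneg_left pγ (by positivity)
  have hMν : 0 ≤ M * ν ^ 2 := by positivity
  have hME : 0 ≤ M * |E' - E| := by positivity
  have key : F U E' (g * x) - F U E g - (A U E g * (x.1 0 0 - x.1 1 1) + P U E g * x.1 0 1 + Q U E g * x.1 1 0) =
      (F U E' (g * x) - F U E (g * x)) + (F U E (g * nM β) - F U E g - β * P U E g) + (F U E (g * nM β * aM α) - F U E (g * nM β) - α * A U E (g * nM β)) +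
      (F U E (g * x) - F U E (g * nM β * aM α) - γ * Q U E (g * nM β * aM α)) + α * (A U E (g * nM β) - A U E g) + γ * (Q U E (g * nM β * aM α) - Q U E g) +
      A U E g * (α - (x.1 0 0 - x.1 1 1)) + P U E g * (β - x.1 0 1) + Q U E g * (γ - x.1 1 0) := by ring
  rw [key]
  have u1 := abs_le.1 t4
  have u2 := abs_le.1 s1
  have u3 := abs_le.1 s2
  have u4 := abs_le.1 s3
  have u5 := abs_le.1 q1
  have u6 := abs_le.1 q2
  have u7 := abs_le.1 q3
  have u8 := abs_le.1 q4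
  have u9 := abs_le.1 q5
  have htot : 100 * M * (ν ^ 2 + |E' - E|) = 100 * (M * ν ^ 2) + 100 * (M * |E' - E|) := by ring
  rw [htot, abs_le]
  constructor
  · linarith [u1.1, u2.1, u3.1, u4.1, u5.1, u6.1, u7.1, u8.1, u9.1]
  · linarith [u1.2, u2.2, u3.2, u4.2, u5.2, u6.2, u7.2, u8.2, u9.2]

/-- the building blocks (from the proof of row LFK, helper61) -/
theorem FN4_blocks (hNUB : NUB_stmt) (Γ : Subgroup SL(2, ℝ)) (k : ℝ) (B : ℕ → ℝ) (hk : 0 < k) :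
    LFK_L Γ k B (fun U _ g => n1 U g) ∧ LFK_L Γ k B (fun U _ g => n2 U g) ∧ (∀ i j, LFK_L Γ k B (fun U _ g => hess U g i j)) ∧
    LFK_L Γ k B (fun U E g => rho U E g) ∧ LFK_L Γ k B (fun U E g => (rho U E g)⁻¹) ∧ LFK_L Γ k B (fun U E g => kap U E g) := by
  obtain ⟨C0, hC0, hN⟩ := hNUB k hk
  have hδ : 0 < 1 / k + 1 := by positivity
  have hnm : ∀ y : SL(2, ℝ), 0 ≤ nm y := fun y => (abs_nonneg _).trans (FE4_nm y).1
  have hn1 : LFK_L Γ k B (fun U _ g => n1 U g) := by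
    refine ⟨C0 + 20 * (1 / k + 1), by positivity, fun U hU => ⟨fun E g _ => ?_, fun E E' g y _ _ hy => ?_⟩⟩
    · have := ((hN Γ B U hU).2.1 g).2.1
      linarith
    · have h1 := (RFF_dif Γ _ B U (LFK_pot hU) hδ g y hy).1
      have h2 := abs_nonneg (E' - E)
      nlinarith [hnm y]
  have hn2 : LFK_L Γ k B (fun U _ g => n2 U g) := by
    refine ⟨C0 + 20 * (1 / k + 1), by positivity, fun U hU => ⟨fun E g _ => ?_, fun E E' g y _ _ hy => ?_⟩⟩
    · have := ((hN Γ B U hU).2.1 g).2.2.1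
      linarith
    · have h1 := (RFF_dif Γ _ B U (LFK_pot hU) hδ g y hy).2.1
      have h2 := abs_nonneg (E' - E)
      nlinarith [hnm y]
  have hhs : ∀ i j, LFK_L Γ k B (fun U _ g => hess U g i j) := by
    intro i j
    refine ⟨C0 + 40 * (1 / k + 1), by positivity, fun U hU => ⟨fun E g _ => ?_, fun E E' g y _ _ hy => ?_⟩⟩
    · have := ((hN Γ B U hU).2.1 g).2.2.2.1 i j
      linarith
    · have h1 := (RFF_dif Γ _ B U (LFK_pot hU) hδ g y hy).2.2 i j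
      have h2 := abs_nonneg (E' - E)
      nlinarith [hnm y]
  have ha : LFK_L Γ k B (fun U E g => rho U E g ^ 2) := by
    refine ⟨C0 + 2 * k + 20 * (1 / k + 1) + 2, by positivity, fun U hU => ⟨fun E g hE => ?_, fun E E' g y hE hE' hy => ?_⟩⟩
    · change |rho U E g ^ 2| ≤ _
      rw [((hN Γ B U hU).2.2.1 E g hE).2.2.1]
      have h1 := ((hN Γ B U hU).2.1 g).1
      have h2 := abs_add_le (U (g • I)) (2 * E)
      rw [abs_mul, abs_of_pos (two_pos : (0 : ℝ) < 2)] at h2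
      linarith
    · change |rho U E' (g * y) ^ 2 - rho U E g ^ 2| ≤ _
      rw [((hN Γ B U hU).2.2.1 E g hE).2.2.1, ((hN Γ B U hU).2.2.1 E' (g * y) hE').2.2.1]
      have h1 := (FE4_UL Γ _ B U (LFK_pot hU) hδ g y).1
      have h2 := abs_add_le (U ((g * y) • I) - U (g • I)) (2 * (E' - E))
      rw [abs_mul, abs_of_pos (two_pos : (0 : ℝ) < 2)] at h2
      have e : U ((g * y) • I) + 2 * E' - (U (g • I) + 2 * E) = U ((g * y) • I) - U (g • I) + 2 * (E' - E) := by ring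
      rw [e]
      have h3 := abs_nonneg (E' - E)
      have h4 := mul_nonneg hk.le h3
      have h5 := mul_nonneg hk.le (hnm y)
      nlinarith [hnm y]
  have hr : LFK_L Γ k B (fun U E g => rho U E g) := by
    obtain ⟨Ca, hCa, ha⟩ := ha
    refine ⟨C0 + Ca * C0, by positivity, fun U hU => ⟨fun E g hE => ?_, fun E E' g y hE hE' hy => ?_⟩⟩
    · obtain ⟨h1, h2, -⟩ := (hN Γ B U hU).2.2.1 E g hE
      have h3 : 0 < rho U E g := lt_of_lt_of_le (by positivity) h1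
      rw [abs_of_pos h3]
      have h4 : 0 ≤ Ca * C0 := by positivity
      linarith
    · obtain ⟨h1, -, -⟩ := (hN Γ B U hU).2.2.1 E g hE
      obtain ⟨h1', -, -⟩ := (hN Γ B U hU).2.2.1 E' (g * y) hE'
      have hC0p : 0 < C0 := by linarith
      have h3 := (ha U hU).2 E E' g y hE hE' hy
      have h4 : |rho U E' (g * y) ^ 2 - rho U E g ^ 2| = |rho U E' (g * y) - rho U E g| * (rho U E' (g * y) + rho U E g) := by
        have h5 : 0 < rho U E' (g * y) + rho U E g := by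
          have := one_div_pos.2 hC0p
          linarith
        rw [show rho U E' (g * y) ^ 2 - rho U E g ^ 2 = (rho U E' (g * y) - rho U E g) * (rho U E' (g * y) + rho U E g) by ring,
          abs_mul, abs_of_pos h5]
      rw [h4] at h3
      have h6 : |rho U E' (g * y) - rho U E g| * (1 / C0) ≤ |rho U E' (g * y) - rho U E g| * (rho U E' (g * y) + rho U E g) :=
        mul_le_mul_of_nonneg_left (by
          have := one_div_pos.2 hC0p
          linarith) (abs_nonneg _)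
      have h7 : |rho U E' (g * y) - rho U E g| ≤ Ca * (nm y + |E' - E|) * C0 := by
        have h8 := h6.trans h3
        rw [mul_one_div, div_le_iff₀ hC0p] at h8
        exact h8
      have h9 := mul_nonneg hC0p.le (LFK_nm y E E')
      nlinarith
  have hri : LFK_L Γ k B (fun U E g => (rho U E g)⁻¹) := LFK_inv hr (1 / C0) (by positivity) (fun U hU E g hE => ((hN Γ B U hU).2.2.1 E g hE).1)
  have hkap : LFK_L Γ k B (fun U E g => kap U E g) := by
    refine LFK_congr (LFK_mul (LFK_const (1 / 2)) (LFK_mul hn2 hri)) (fun U E g => ?_)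
    unfold kap
    rw [div_eq_mul_inv, mul_inv]
    ring
  exact ⟨hn1, hn2, hhs, hr, hri, hkap⟩

theorem FN4_proof (hLFK : LFK_stmt) (hNUB : NUB_stmt) (hNDN : NDN_stmt) (hFLBN : FLBN_stmt) : FN4_stmt := by
  intro Γ hΓ k B hk
  obtain ⟨C1, hC1, hFK⟩ := hLFK Γ k B hΓ hk
  obtain ⟨C0, hC0, hN⟩ := hNUB k hk
  obtain ⟨ln1, ln2, lhs, lrh, lri, lka⟩ := FN4_blocks hNUB Γ k B hk
  have lhalf : LFK_L Γ k B (fun U E g => 1 / 2 * (rho U E g)⁻¹) := LFK_mul (LFK_const (1 / 2)) lri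
  -- the Taylor formulas
  have Tr := FN4_tay (F := fun U E g => rho U E g) (A := fun U E g => n1 U g * (1 / 2 * (rho U E g)⁻¹)) (P := fun U E g => -1 * (n2 U g * (1 / 2 * (rho U E g)⁻¹)))
    (Q := fun U E g => -1 * (n2 U g * (1 / 2 * (rho U E g)⁻¹))) lrh (LFK_mul ln1 lhalf) (LFK_mul (LFK_const (-1)) (LFK_mul ln2 lhalf)) (LFK_mul (LFK_const (-1)) (LFK_mul ln2 lhalf)) (by
      intro U hU γ t x b c E hE hγ
      obtain ⟨-, -, -, h1, -⟩ := hNDN Γ k B U hU γ t x b c E hE hγ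
      have e : (n1 U (γ t) * x - n2 U (γ t) * (b + c)) / (2 * rho U E (γ t)) = n1 U (γ t) * (1 / 2 * (rho U E (γ t))⁻¹) * x + -1 * (n2 U (γ t) * (1 / 2 * (rho U E (γ t))⁻¹)) * b +
          -1 * (n2 U (γ t) * (1 / 2 * (rho U E (γ t))⁻¹)) * c := by
        rw [div_eq_mul_inv, mul_inv]
        ring
      rw [e] at h1
      exact h1)
  have Tk := FN4_tay (F := fun U E g => kap U E g)
    (A := fun U E g => hess U g 1 0 * (1 / 2 * (rho U E g)⁻¹) + -1 * (kap U E g * ((rho U E g)⁻¹ * (n1 U g * (1 / 2 * (rho U E g)⁻¹)))))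
    (P := fun U E g => -1 * ((hess U g 1 1 + n1 U g) * (1 / 2 * (rho U E g)⁻¹)) + kap U E g * ((rho U E g)⁻¹ * (n2 U g * (1 / 2 * (rho U E g)⁻¹))))
    (Q := fun U E g => -1 * ((hess U g 1 1 + -1 * n1 U g) * (1 / 2 * (rho U E g)⁻¹)) + kap U E g * ((rho U E g)⁻¹ * (n2 U g * (1 / 2 * (rho U E g)⁻¹))))
    lka (LFK_add (LFK_mul (lhs 1 0) lhalf) (LFK_mul (LFK_const (-1)) (LFK_mul lka (LFK_mul lri (LFK_mul ln1 lhalf)))))
    (LFK_add (LFK_mul (LFK_const (-1)) (LFK_mul (LFK_add (lhs 1 1) ln1) lhalf)) (LFK_mul lka (LFK_mul lri (LFK_mul ln2 lhalf))))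
    (LFK_add (LFK_mul (LFK_const (-1)) (LFK_mul (LFK_add (lhs 1 1) (LFK_mul (LFK_const (-1)) ln1)) lhalf)) (LFK_mul lka (LFK_mul lri (LFK_mul ln2 lhalf)))) (by
      intro U hU γ t x b c E hE hγ
      obtain ⟨-, -, -, -, h1⟩ := hNDN Γ k B U hU γ t x b c E hE hγ
      have e : (hess U (γ t) 1 0 * x - hess U (γ t) 1 1 * (b + c) - (b - c) * n1 U (γ t)) / (2 * rho U E (γ t)) -
          kap U E (γ t) * ((n1 U (γ t) * x - n2 U (γ t) * (b + c)) / (2 * rho U E (γ t))) / rho U E (γ t) =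
          (hess U (γ t) 1 0 * (1 / 2 * (rho U E (γ t))⁻¹) + -1 * (kap U E (γ t) * ((rho U E (γ t))⁻¹ * (n1 U (γ t) * (1 / 2 * (rho U E (γ t))⁻¹))))) * x +
          (-1 * ((hess U (γ t) 1 1 + n1 U (γ t)) * (1 / 2 * (rho U E (γ t))⁻¹)) + kap U E (γ t) * ((rho U E (γ t))⁻¹ * (n2 U (γ t) * (1 / 2 * (rho U E (γ t))⁻¹)))) * b +
          (-1 * ((hess U (γ t) 1 1 + -1 * n1 U (γ t)) * (1 / 2 * (rho U E (γ t))⁻¹)) + kap U E (γ t) * ((rho U E (γ t))⁻¹ * (n2 U (γ t) * (1 / 2 * (rho U E (γ t))⁻¹)))) * c := by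
        simp only [div_eq_mul_inv, mul_inv]
        ring
      rw [e] at h1
      exact h1)
  obtain ⟨cr, hcr, Tr⟩ := Tr
  obtain ⟨ck, hck, Tk⟩ := Tk
  obtain ⟨c1, hc1, G1⟩ := FN4_glob lrh
  obtain ⟨c2, hc2, G2⟩ := FN4_glob lka
  obtain ⟨c3, hc3, G3⟩ := FN4_glob ln1
  set C : ℝ := C0 + C1 + C1 ^ 2 + cr + ck + c1 + c2 + c3 with hC
  have hsq : 0 ≤ C1 ^ 2 := sq_nonneg _
  have hC1' : 1 ≤ C := by linarith
  have hCp : 0 < C := by linarith
  have hle : ∀ c z : ℝ, 0 ≤ z → c ≤ C → c * z ≤ C * z := fun c z hz hc => mul_le_mul_of_nonneg_right hc hz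
  refine ⟨C, fun D hD => ?_⟩
  have hU := hD.pot
  have K := hFK D hD
  have hEn : ∀ E E' : ℝ, 0 ≤ |E' - E| := fun E E' => abs_nonneg _
  refine ⟨hk, hC1', ?_, ?_, ?_, ?_, ?_, ?_, ?_, ?_, ?_, ?_, hD.fl0, ?_, ?_, hD.cfl, ?_⟩
  · intro E g hE
    obtain ⟨h1, h2, -⟩ := (hN Γ B D.U hU).2.2.1 E g hE
    exact ⟨le_trans (one_div_le_one_div_of_le (by linarith) (by linarith)) h1, by linarith⟩
  · intro E g hE
    obtain ⟨-, -, -, h1, -⟩ := (hN Γ B D.U hU).2.2.1 E g hE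
    linarith
  · intro g
    obtain ⟨-, h1, h2, h3, -⟩ := (hN Γ B D.U hU).2.1 g
    exact ⟨by linarith, by linarith, fun i j => by linarith [h3 i j]⟩
  · intro E g hE
    obtain ⟨-, -, a1, a2, q1, q2⟩ := K.ro E g hE
    unfold fa at a1 a2
    unfold fq at q1 q2
    have hC1p : 0 < C1 := by linarith
    have ha : 0 < rho D.U E g ^ 2 := lt_of_lt_of_le (by positivity) a1
    set a := rho D.U E g ^ 2 with haa
    set K' := Kg D.U E g with hK'
    have hq : -(a * K') = a * (-K') := by ring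
    rw [hq] at q1 q2
    have i1 : 1 / C1 = C1⁻¹ := one_div C1
    rw [i1] at a1 q1
    have hCC : C1 * C1⁻¹ = 1 := mul_inv_cancel₀ hC1p.ne'
    have hK0 : 0 < -K' := by
      by_contra hneg
      have h1 : a * (-K') ≤ 0 := mul_nonpos_of_nonneg_of_nonpos ha.le (not_lt.1 hneg)
      have h2 : 0 < C1⁻¹ := inv_pos.2 hC1p
      linarith
    constructor
    · -- 1/C ≤ -K'
      have h1 : C1⁻¹ ≤ C1 * (-K') := q1.trans (mul_le_mul_of_nonneg_right a2 hK0.le)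
      have h2 : 1 ≤ C1 ^ 2 * (-K') := by
        have h3 := mul_le_mul_of_nonneg_left h1 hC1p.le
        rw [hCC] at h3
        linarith
      rw [div_le_iff₀ hCp]
      have h3 : C1 ^ 2 * (-K') ≤ C * (-K') := mul_le_mul_of_nonneg_right (by linarith) hK0.le
      linarith
    · have h1 : C1⁻¹ * (-K') ≤ C1 := (mul_le_mul_of_nonneg_right a1 hK0.le).trans q2
      have h2 := mul_le_mul_of_nonneg_left h1 hC1p.le
      have h3 : C1 * (C1⁻¹ * (-K')) = -K' := by rw [← mul_assoc, hCC, one_mul]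
      rw [h3] at h2
      linarith
  · intro E E' g x hE hE'
    exact ((G1 D.U hU).2 E E' g x hE hE').trans (hle _ _ (add_nonneg (FN4_nm0 x) (hEn E E')) (by linarith))
  · intro E E' g x hE hE'
    exact ((G2 D.U hU).2 E E' g x hE hE').trans (hle _ _ (add_nonneg (FN4_nm0 x) (hEn E E')) (by linarith))
  · intro g x
    have h1 := (G3 D.U hU).2 0 0 g x (by rw [abs_zero]; exact hk.le) (by rw [abs_zero]; exact hk.le)
    rw [sub_self, abs_zero, add_zero] at h1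
    exact h1.trans (hle _ _ (FN4_nm0 x) (by linarith))
  · intro E E' g x hE hE' hx
    have h1 := Tr D.U hU E E' g x hE hE' hx
    have e : n1 D.U g * (1 / 2 * (rho D.U E g)⁻¹) * (x.1 0 0 - x.1 1 1) + -1 * (n2 D.U g * (1 / 2 * (rho D.U E g)⁻¹)) * x.1 0 1 +
        -1 * (n2 D.U g * (1 / 2 * (rho D.U E g)⁻¹)) * x.1 1 0 = dr D.U E g (x.1 0 0 - x.1 1 1) (x.1 0 1) (x.1 1 0) := by
      unfold dr
      simp only [div_eq_mul_inv, mul_inv]
      ring
    have h2 := h1.trans (hle _ _ (add_nonneg (sq_nonneg (nm x)) (hEn E E')) (show cr ≤ C by linarith))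
    rw [← e]
    exact h2
  · intro E E' g x hE hE' hx
    have h1 := Tk D.U hU E E' g x hE hE' hx
    have e : (hess D.U g 1 0 * (1 / 2 * (rho D.U E g)⁻¹) + -1 * (kap D.U E g * ((rho D.U E g)⁻¹ * (n1 D.U g * (1 / 2 * (rho D.U E g)⁻¹))))) * (x.1 0 0 - x.1 1 1) +
        (-1 * ((hess D.U g 1 1 + n1 D.U g) * (1 / 2 * (rho D.U E g)⁻¹)) + kap D.U E g * ((rho D.U E g)⁻¹ * (n2 D.U g * (1 / 2 * (rho D.U E g)⁻¹)))) * x.1 0 1 +
        (-1 * ((hess D.U g 1 1 + -1 * n1 D.U g) * (1 / 2 * (rho D.U E g)⁻¹)) + kap D.U E g * ((rho D.U E g)⁻¹ * (n2 D.U g * (1 / 2 * (rho D.U E g)⁻¹)))) * x.1 1 0 =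
        dk D.U E g (x.1 0 0 - x.1 1 1) (x.1 0 1) (x.1 1 0) := by
      unfold dk dr
      simp only [div_eq_mul_inv, mul_inv]
      ring
    have h2 := h1.trans (hle _ _ (add_nonneg (sq_nonneg (nm x)) (hEn E E')) (show ck ≤ C by linarith))
    rw [← e]
    exact h2
  · intro E t g hE
    have hρ : 0 < rho D.U E (D.fl E t g) := by
      obtain ⟨h1, -⟩ := (hN Γ B D.U hU).2.2.1 E (D.fl E t g) hE
      exact lt_of_lt_of_le (by positivity) h1
    have hXX : XX D.U E (D.fl E t g) = !![rho D.U E (D.fl E t g) / 2, kap D.U E (D.fl E t g) / 2; -(kap D.U E (D.fl E t g) / 2), -(rho D.U E (D.fl E t g) / 2)] := by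
      unfold XX A0 K0
      ext i j
      fin_cases i <;> fin_cases j <;> simp <;> ring
    obtain ⟨-, d1, d2, d3, -⟩ := hNDN Γ k B D.U hU (fun s => D.fl E s g) t (rho D.U E (D.fl E t g)) (kap D.U E (D.fl E t g) / 2) (-(kap D.U E (D.fl E t g) / 2)) E hE (by
      intro i j
      rw [← hXX]
      exact hD.dfl E t g hE i j)
    refine ⟨?_, ?_, ?_⟩
    · have e : (n1 D.U (D.fl E t g) * rho D.U E (D.fl E t g) - n2 D.U (D.fl E t g) * (kap D.U E (D.fl E t g) / 2 + -(kap D.U E (D.fl E t g) / 2))) / (2 * rho D.U E (D.fl E t g)) =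
          n1 D.U (D.fl E t g) / 2 := by
        field_simp
        ring
      rw [← e]
      exact d3
    · have e : hess D.U (D.fl E t g) 0 0 * rho D.U E (D.fl E t g) - hess D.U (D.fl E t g) 0 1 * (kap D.U E (D.fl E t g) / 2 + -(kap D.U E (D.fl E t g) / 2)) +
          (kap D.U E (D.fl E t g) / 2 - -(kap D.U E (D.fl E t g) / 2)) * n2 D.U (D.fl E t g) = hess D.U (D.fl E t g) 0 0 * rho D.U E (D.fl E t g) + kap D.U E (D.fl E t g) * n2 D.U (D.fl E t g) := by ring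
      rw [← e]
      exact d1
    · have e : hess D.U (D.fl E t g) 1 0 * rho D.U E (D.fl E t g) - hess D.U (D.fl E t g) 1 1 * (kap D.U E (D.fl E t g) / 2 + -(kap D.U E (D.fl E t g) / 2)) -
          (kap D.U E (D.fl E t g) / 2 - -(kap D.U E (D.fl E t g) / 2)) * n1 D.U (D.fl E t g) = hess D.U (D.fl E t g) 1 0 * rho D.U E (D.fl E t g) - kap D.U E (D.fl E t g) * n1 D.U (D.fl E t g) := by ring
      rw [← e]
      exact d2
  · intro E s t g hE
    exact (hFLBN Γ k B D hΓ hD E hE).1 s t g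
  · intro E t g hE
    have hr := (hFLBN Γ k B D hΓ hD E hE).2.2
    have hkk : ∀ g : SL(2, ℝ), g * kM (Real.pi / 2) * kM (Real.pi / 2) = -g := by
      intro g
      rw [mul_assoc, FE4_kk, mul_neg, mul_one]
    have h1 := hr (-t) (g * kM (Real.pi / 2))
    rw [neg_neg, hkk, hr t g, hkk] at h1
    exact h1
  · exact fun E t g hE => hD.dfl E t g hE

end

end Pool.Agent.VN
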