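import Pool.Agent.helper84.VN.RIG
import Pool.Agent.helper84.VN.FN4
import Pool.Agent.helper72.VN.PN4
import Pool.Agent.helper69.VN.GN4
import Pool.Agent.helper96.VN.SN4
import Pool.Agent.helper39.VN.JW4
import Pool.Agent.helper23.VN.CN4
import Pool.Agent.helper89.VN.UR4
import Pool.Agent.helper59.VN.UA4
import Pool.Agent.helper38.VN.UB4
import Pool.Agent.helper27.VN.US4
import Pool.Agent.helper52.VN.QS4
import Pool.Agent.helper79.VN.RN4
import Pool.Agent.helper25.VN.SW4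
import Pool.Agent.helper52.VN.CT4
import Pool.Agent.helper23.VN.CE4
import Pool.Agent.helper33.VN.GF4
import Pool.Agent.helper96.VN.RB4
import Pool.Agent.helper34.VN.J64
import Pool.Agent.helper67.VN.SG4
import Pool.Agent.helper36.VN.HN4
import Pool.Agent.helper23.VN.IN4
import Pool.Agent.helper14.VN.DN4
import Pool.Agent.helper49.VN.LVS
import Pool.Agent.helper67.VN.LST
import Pool.Agent.helper71.VN.LGF
import Pool.Agent.helper94.VN.LDR
import Pool.Agent.helper1.VN.LSL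
import Pool.Agent.helper3.VN.LTW
import Pool.Agent.helper85.VN.LS0
import Pool.Agent.helper89.VN.NYU
import Pool.Agent.helper44.VN.NYC
import Pool.Agent.helper46.VN.NYV
import Pool.Agent.helper64.VN.NYA
import Pool.Agent.helper2.VN.NUB
import Pool.Agent.helper36.VN.NJW
import Pool.Agent.helper23.VN.NDN
import Pool.Agent.helper80.VQ.AllFL
import Pool.Agent.helper40.VQ.VCD
import Pool.Agent.helper67.VQ.AR4
import Pool.Agent.helper47.VQE.HAL
import Pool.Agent.helper78.VN.KN4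
import Pool.Agent.helper31.VN.LJT

/-!
# Project VN (MP_07c750_an), blocks 4a and 4b: `I6N_stmt`, `RIGN_stmt` without hypotheses; `DON_stmt` from KN4, NI9, I4N
-/

set_option autoImplicit false

namespace Pool.Agent.VN

theorem G_NUB : NUB_stmt := NUB_proof VQ.VCD_proof
theorem G_NDN : NDN_stmt := NDN_proof VQ.VCD_proof
theorem G_NJW : NJW_stmt := NJW_proof G_NDN
theorem G_LVS : LVS_stmt := LVS_proof VQ.F_FLC
theorem G_LFK : LFK_stmt := LFK_proof G_NUB G_NJW G_NDN G_LVS F_FLBN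
theorem G_FN4 : FN4_stmt := FN4_proof G_LFK G_NUB G_NDN F_FLBN
theorem G_GN4 : GN4_stmt := GN4_proof PN4_proof
theorem G_JW4 : JW4_stmt := JW4_proof PN4_proof
theorem G_CN4 : CN4_stmt := CN4_proof SN4_proof
theorem G_UR4 : UR4_stmt := UR4_proof SN4_proof
theorem G_UA4 : UA4_stmt := UA4_proof G_GN4 G_JW4 G_CN4
theorem G_UB4 : UB4_stmt := UB4_proof G_GN4 G_JW4 G_CN4
theorem G_US4 : US4_stmt := US4_proof G_GN4 G_CN4 G_UR4 G_UA4 G_UB4
theorem G_RN4 : RN4_stmt := RN4_proof G_GN4 G_CN4 G_UR4 G_US4 QS4_proof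
theorem G_SW4 : SW4_stmt := SW4_proof G_CN4 G_UR4 G_US4 QS4_proof
theorem G_GF4 : GF4_stmt := GF4_proof G_GN4
theorem G_RB4 : RB4_stmt := RB4_proof G_FN4 G_RN4 CE4_proof G_GF4 VQ.AR4_proof
theorem G_J64 : J64_stmt := J64_proof G_FN4 CE4_proof G_GF4 VQ.AR4_proof
theorem G_SG4 : SG4_stmt := SG4_proof G_FN4 G_GN4 G_UR4 G_SW4 CT4_proof CE4_proof G_GF4 VQ.AR4_proof

/-- **(I6)** -/
theorem G_I6N : I6N_stmt := I6N_proof G_J64

/-- **(RIG)** -/
theorem G_RIGN : RIGN_stmt := RIGN_proof G_RB4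

theorem G_IN4 : IN4_stmt := IN4_proof (HN4_proof VQE.HAL_proof)
theorem G_NYU : NYU_stmt := NYU_proof (NYC_proof (NYA_proof G_NUB) G_NUB) (NYV_proof G_NDN G_NUB) G_NUB
theorem G_LGF : LGF_stmt := LGF_proof LSL_proof LTW_proof LDR_proof
theorem G_LST : LST_stmt := LST_proof LS0_proof

theorem G_KN4 : KN4_stmt := KN4_proof G_FN4 SN4_proof G_LFK G_LST (LJT_proof LDR_proof) G_LGF LDR_proof G_NYU

/-- **domination** -/
theorem G_DON (hNI9 : NI9_stmt) (hI4N : I4N_stmt) : DON_stmt := DN4_proof G_KN4 G_IN4 G_SG4 hNI9 hI4N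

end Pool.Agent.VN
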