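import Pool.Agent.helper84.VN.Spec4n
import Pool.Agent.helper11.VN.Spec3i
import Pool.Agent.helper14.VQE.NMB

/-!
# Project VN (MP_07c750_an): the interface statements `I6N_stmt` and `RIGN_stmt` from the rows `J64`, `RB4`
-/

set_option autoImplicit false

open scoped MatrixGroups ContDiff Topology UpperHalfPlane ComplexConjugate ENNReal
open UpperHalfPlane MeasureTheory Filter Set

namespace Pool.Agent.VN

open Pool.Agent.RS Pool.Agent.VQ
open Pool.Agent.VQE (nm NMB_le NMB_of_le NMB_cont NMB_nonneg)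

theorem I6N_proof (hJ64 : J64_stmt) : I6N_stmt := by
  intro Γ k B hΓ hk
  obtain ⟨C, hC, H⟩ := hJ64 Γ hΓ k B hk
  exact ⟨C, by linarith, H⟩

lemma RIG_neg (x : SL(2, ℝ)) (i j : Fin 2) : (-x).1 i j = -x.1 i j := by
  have h : (-x).1 = -x.1 := Matrix.SpecialLinearGroup.coe_neg x
  rw [h]
  rfl

lemma RIG_Bo1 (x : SL(2, ℝ)) (r : ℝ) (h : x ∈ Bo r) : nm x ≤ r ∨ nm (-x) ≤ r := by
  rcases h with h | h
  · exact Or.inl (NMB_of_le _ _ fun i j => (h i j).le)
  · refine Or.inr (NMB_of_le _ _ fun i j => ?_)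
    rw [RIG_neg, show -x.1 i j - (1 : Matrix (Fin 2) (Fin 2) ℝ) i j = -(x.1 i j + (1 : Matrix (Fin 2) (Fin 2) ℝ) i j) by ring, abs_neg]
    exact (h i j).le

lemma RIG_Bo2 (x : SL(2, ℝ)) (r r' : ℝ) (hr : r < r') (h : nm x ≤ r ∨ nm (-x) ≤ r) : x ∈ Bo r' := by
  rcases h with h | h
  · exact Or.inl fun i j => ((NMB_le x i j).trans h).trans_lt hr
  · refine Or.inr fun i j => ?_
    have h1 := NMB_le (-x) i j
    rw [RIG_neg, show -x.1 i j - (1 : Matrix (Fin 2) (Fin 2) ℝ) i j = -(x.1 i j + (1 : Matrix (Fin 2) (Fin 2) ℝ) i j) by ring, abs_neg] at h1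
    exact (h1.trans h).trans_lt hr

lemma RIG_cont (Γ : Subgroup SL(2, ℝ)) (k : ℝ) (B : ℕ → ℝ) (D : Dyn) (hD : OKN Γ k B D) (E : ℝ) (g : SL(2, ℝ)) : Continuous (fun s => D.fl E s g) := by
  by_cases hE : |E| ≤ k
  · refine continuous_induced_rng.2 (continuous_pi fun i => continuous_pi fun j => ?_)
    exact continuous_iff_continuousAt.2 fun t => (hD.dfl E t g hE i j).continuousAt
  · have h : (fun s => D.fl E s g) = fun _ => g := funext fun s => (hD.out E s g (not_le.1 hE)).1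
    rw [h]
    exact continuous_const

theorem RIGN_proof (hRB4 : RB4_stmt) : RIGN_stmt := by
  intro Γ k B hΓ hk
  obtain ⟨C, η0, hC, hη0, H⟩ := hRB4 Γ hΓ k B hk
  refine ⟨C, η0, by linarith, hη0, fun A N hA hN => ?_⟩
  obtain ⟨R0, hR0, H1⟩ := H A N hA hN
  have hz : 0 < A.z := lt_of_lt_of_le (by have := hA.e3; positivity) hA.z
  have hz1 : 0 < A.z1 := lt_of_lt_of_le (by positivity) hA.z1
  have hz2 : 0 < A.z2 := lt_of_lt_of_le (by positivity) hA.z2
  refine ⟨max R0 2, le_max_of_le_left hR0, fun R D hR hD w w' hw hw' h0 hN' hcl j hj => ?_⟩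
  have hR0' : R0 ≤ R := (le_max_left _ _).trans hR
  have hR2 : 2 ≤ R := (le_max_right _ _).trans hR
  have hlt : R ^ (-(1 / 2) + 3 / 2 * A.z2) < R ^ (-(1 / 2) + C * A.z2) := by
    apply Real.rpow_lt_rpow_of_exponent_lt (by linarith)
    nlinarith
  have htu : 0 < A.tu R := by
    unfold Prm.tu Prm.sg
    have hm : (1 : ℝ) ≤ A.m := by exact_mod_cast hA.m
    have hl : 0 < Real.log R := Real.log_pos (by linarith)
    have := hA.e3
    positivity
  have key : ∀ j < N, ∀ s : ℝ, 0 ≤ s → s ≤ A.tu R → nm ((D.fl (w j).2 s (w j).1)⁻¹ * D.fl (w' j).2 s (w' j).1) ≤ η0 ∨ nm (-((D.fl (w j).2 s (w j).1)⁻¹ * D.fl (w' j).2 s (w' j).1)) ≤ η0 := by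
    intro j hj s hs0 hs1
    set X : ℝ → SL(2, ℝ) := fun s => (D.fl (w j).2 s (w j).1)⁻¹ * D.fl (w' j).2 s (w' j).1 with hX
    have hXc : Continuous X := (RIG_cont Γ k B D hD _ _).inv.mul (RIG_cont Γ k B D hD _ _)
    have hXn : Continuous (fun s => -(X s)) := by
      have h : (fun s => -(X s)) = fun s => (-1) * X s := funext fun s => (neg_one_mul (X s)).symm
      rw [h]
      exact continuous_const.mul hXc
    have hcl' : IsClosed {s : ℝ | nm (X s) ≤ η0 ∨ nm (-(X s)) ≤ η0} :=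
      (isClosed_le (NMB_cont.comp hXc) continuous_const).union (isClosed_le (NMB_cont.comp hXn) continuous_const)
    have hsub : Ico 0 (A.tu R) ⊆ {s : ℝ | nm (X s) ≤ η0 ∨ nm (-(X s)) ≤ η0} := by
      intro s hs
      have hjt : (j : ℝ) * A.tu R + s < N * A.tu R := by
        have h1 : (j : ℝ) + 1 ≤ N := by exact_mod_cast hj
        have h2 := hs.2
        nlinarith
      have h0' : 0 ≤ (j : ℝ) * A.tu R + s := add_nonneg (by positivity) hs.1
      have h1 := hcl ((j : ℝ) * A.tu R + s) h0' hjt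
      have hfl : ⌊((j : ℝ) * A.tu R + s) / A.tu R⌋₊ = j := by
        rw [Nat.floor_eq_iff (by positivity)]
        constructor
        · rw [le_div_iff₀ htu]
          linarith [hs.1]
        · rw [div_lt_iff₀ htu]
          nlinarith [hs.2]
      unfold frZ at h1
      rw [hfl, add_sub_cancel_left] at h1
      exact RIG_Bo1 _ _ h1
    have h2 := closure_minimal hsub hcl'
    rw [closure_Ico htu.ne] at h2
    exact h2 ⟨hs0, hs1⟩
  obtain ⟨h1, h2⟩ := H1 R D hR0' hD w w' hw hw' h0 hN' key j hj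
  exact ⟨RIG_Bo2 _ _ _ hlt h1, h2.trans_lt hlt⟩

end Pool.Agent.VN
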