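import Pool.Agent.helper84.VN.Spec4n
import Pool.Agent.helper93.VN.SpecL
import Pool.Agent.helper74.VN.SpecC

/-!
# Project VN (MP_07c750_an), block 4b: DOMINATION of one big step; rows `vn:HN4`, `vn:IN4`, `vn:KN4`, `vn:DN4`

RULES as in Spec4n. Row `vn:XX4`: file `Pool/Agent/<seat>/VN/XX4.lean`, `import Pool.Agent.helper84.VN.Spec4m`, `set_option autoImplicit false`, namespace `Pool.Agent.VN`, `open Pool.Agent.RS Pool.Agent.VQ`, `open Pool.Agent.VQE (nm)`, auxiliary lemmas prefixed `XX4_`,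
theorem `XX4_proof (h..) : XX4_stmt`. No `convert`, `congr!`, `native_decide`, no double quotes, no `private`. Models: `Pool/Agent/helper96/VQ/DA4.lean`, `Pool/Agent/helper25/VQ/DB4.lean`, row DM4 of VQ (helper61), `Pool/Agent/helper14/VQE/NMB.lean` (`nm`), `Pool/Agent/helper47/VQE/HAL.lean`.
-/

open scoped MatrixGroups ContDiff Topology UpperHalfPlane ComplexConjugate ENNReal
open UpperHalfPlane MeasureTheory Filter Set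

namespace Pool.Agent.VN

open Pool.Agent.RS Pool.Agent.VQ
open Pool.Agent.VQE (nm)

noncomputable section

/-- the map `z ↦ y (z 0) (z 1) kM (z 2)` -/
def TN3 (y : ℝ → ℝ → SL(2, ℝ)) (z : Fin 3 → ℝ) : SL(2, ℝ) := y (z 0) (z 1) * kM (z 2)

/-- small surfaces through `1` with the Lipschitz constants `c` (first variable) and `L` (second variable) on `[-r, r]²` -/
structure LN (c L r : ℝ) (y : ℝ → ℝ → SL(2, ℝ)) : Prop where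
  cont : Continuous (fun p : ℝ × ℝ => y p.1 p.2)
  zero : y 0 0 = 1
  c0 : 0 < c
  L1 : 1 ≤ L
  r0 : 0 < r
  Lr : L * r ≤ 1 / 20
  cr : c * r ≤ 1 / 20
  lip : ∀ u ∈ Icc (-r) r, ∀ u' ∈ Icc (-r) r, ∀ s ∈ Icc (-r) r, ∀ s' ∈ Icc (-r) r, nm ((y u s)⁻¹ * y u' s') ≤ c * |u - u'| + L * |s - s'|

/-- **Row HN4** (Hausdorff measure; medium: as helper96/VQ/DA4.lean; from VQE.HAL). `nm (y u s) ≤ (c + L) r ≤ 1/10`. For `z, z'` in the box, `Y = y z0 z1`, `Y' = y z0' z1' = Y D`, `nm D ≤ c|z0 - z0'| + L|z1 - z1'|`: `Y' kM(z2') - Y kM(z2) = Y (D - 1) kM(z2') + Y (kM(z2') - kM(z2))`, the entries of `Y` are at most `2`, those of `kM` at most `1`, and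
`|cos|, |sin|` are 1-Lipschitz: `dist (mt Θz) (mt Θz') ≤ 8 (c|z0 - z0'| + L|z1 - z1'|) + 4|z2 - z2'| ≤ 24 L dist (σ z) (σ z')`, `σ z = (c z0, z1, z2)`. `μH[3] (mt '' (Θ '' S)) ≤ (24L)³ μH[3] (σ '' S) = (24L)³ c vol S`. HAL for the compact set `{g | nm g ≤ 4}`. -/
def HN4_stmt : Prop := ∀ L : ℝ, 1 ≤ L → ∃ K : ℝ, 1 ≤ K ∧ ∀ (c r : ℝ) (y : ℝ → ℝ → SL(2, ℝ)), LN c L r y → ∀ S : Set (Fin 3 → ℝ), IsCompact S → S ⊆ Icc (fun _ => -r) (fun _ => r) →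
  mG (TN3 y '' S) ≤ ENNReal.ofReal (K * c) * volume S

/-- **Row IN4** (integrals; short: copy of helper25/VQ/DB4.lean; from HN4, `RS.A_GLI`, `RS.A_GMG`, `RS.A_GLC` (`kM` is continuous)). -/
def IN4_stmt : Prop := ∀ L : ℝ, 1 ≤ L → ∃ K : ℝ, 1 ≤ K ∧ ∀ (c r : ℝ) (y : ℝ → ℝ → SL(2, ℝ)), LN c L r y → ∀ (g : SL(2, ℝ)) (V : SL(2, ℝ) → ENNReal), Measurable V →
  ∫⁻ h in {h | ∃ u ∈ Icc (-r) r, ∃ s ∈ Icc (-r) r, ∃ η ∈ Icc (-r) r, h = g * y u s * kM η}, V h ∂mG ≤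
    ENNReal.ofReal (K * c) * ∫⁻ o in Icc (-r) r ×ˢ Icc (-r) r ×ˢ Icc (-r) r, V (g * y o.1 o.2.1 * kM o.2.2)

/-- **Row KN4** (the surface `(θ, s) ↦ fl (τ + s) (g kM θ)`; medium; from FN4, SN4, LFK, LST, LJT, LGF, LDR, NYU). `C0` = constant of LFK, `K0` of SN4 (with FN4), `CV` of NYU, `F = FM C0`. `C` = a large constant (`C ≥ 60 C0²`, `C ≥ 2K0`, ..). `E = p.2`, `g = p.1`, `τ = A.tu R`, `r = r2 A R`; `e^(3C0² τ) = R^(3C0² m e3) ≤ R^(1/20)` (`m e3 ≤ C⁻⁴`), `z2 ≤ 1/C`;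
for `R ≥ R0`: `|E| ≤ k`, `τ ≥ 6C0² + 2`, and the total length `ε0 = 4 e^(C0) R^(1/20) r` is as small as needed. `γ θ = fl E 1 (g kM θ)` is in `RN (1/2)` (LST), so in `RN 2` (LJT (3)); LGF: `X, Y, Z, L`. `T = τ - 1 + s`, `T0 = τ - 1`: `fl E T (γ θ) = fl E (τ + s) (g kM θ)` (`FK.add`). Lengths over `[-r, r]`: at most `e^(3C0² T) 2 e^(C0) 2r ≤ ε0`.
For `-r ≤ v ≤ v' ≤ r`: `L T v' - L T v ≤ e^(3C0²) (L T0 v' - L T0 v)` (growth, `|T - T0| ≤ 1`), and by `di` (`κ = 2`) at `T0`: `J(T0, v) ≤ 3 J(T0, 0)`, `J(T0, v) ≥ J(T0, 0)/3`, so `L T0 v' - L T0 v ≤ 3 J(T0, 0)(v' - v)` (`dl`, mean value) and `J(T0, 0) r ≤ 3/2 ε0`. LDR: `nm ((fl (τ+s) (g kM v))⁻¹ fl (τ+s) (g kM v')) ≤ 100C0⁴ (L T v' - L T v) ≤ (c/2)(v' - v)`,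
`c = 600 C0⁴ e^(3C0²) J(T0, 0)`. Time: `(fl (τ+s) h)⁻¹ fl (τ+s') h = g1⁻¹ fl (s' - s) g1`, `nm ≤ K0 |s' - s|` (SN4). `nm (a b) ≤ nm a + nm b + 2 nm a nm b`, `nm a⁻¹ = nm a` (NMB). Bound of `c`: `FK.vs` for the curve `θ ↦ g kM θ` with `(x, b, c) = (0, 1, -1)`: `X', Y', Z'`; `Cv` for the curve `θ ↦ fl E τ (g kM θ)` holds with
`(X' τ, Y' τ, Z' τ)` and with `(X T0, Y T0, Z T0)`, so they are equal (`γ ω = γ ω'`). NYU for the solution `X', Y', Z'` at `v = 0`: `J(T0, 0) = -ρ (Y' + Z') ≤ C0 CV ‖det‖`. -/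
def KN4_stmt : Prop := ∀ (Γ : Subgroup SL(2, ℝ)) (k : ℝ) (B : ℕ → ℝ), QU.SurfaceGroup Γ → 0 < k → ∃ C : ℝ, 1 ≤ C ∧ ∀ A : Prm, Adm C A → ∃ R0 : ℝ, 1 ≤ R0 ∧ ∀ (R : ℝ) (D : Dyn), R0 ≤ R → OKN Γ k B D →
  ∀ p : SL(2, ℝ) × ℝ, p.2 ∈ Wi (3 / 2) R → ∃ c : ℝ, c ≤ C * ‖(D.Y p.2 (A.tu R) p.1).det‖ ∧
    LN c C (r2 A R) (fun θ s => (D.fl p.2 (A.tu R) p.1)⁻¹ * D.fl p.2 (A.tu R + s) (p.1 * kM θ))

/-- **Row DN4** = `DON_stmt` of SpecL (medium; from KN4, IN4, SG4, NI9 (helper74/VN/SpecC), I4N (helper11/VN/Spec3i: `ub ≠ 0 → Reach`), RS.A_GLI; model: DM4 of VQ). `C` = maximum of the constants (`Adm` is monotone in `C`). `ub p q ≠ 0`: `Reach`, so by SG4 `|q.2 - p.2| ≤ r2` and `q.1 = ± fl (τ+s) (p.1 kM θ) kM η` with `|θ|, |s|, |η| ≤ r2`.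
With `H = {fl (τ+s) (p.1 kM θ) kM η : |θ|, |s|, |η| ≤ r2}` (compact) and `I = [p.2 - r2, p.2 + r2]`: `q ∈ H × I` or `q ∈ ngM H × I`. NI9: `‖ub p q‖² ≤ R^(4 + C' z2)/‖det‖` (`‖det‖ > 0` by KN4: `0 < c`). Tonelli: `∫_(H × I) V ≤ ∫_(E' ∈ I) ofReal (K c) ∫_(box) V(fl (τ+s) (p.1 kM θ) kM η, E')` (IN4 with `g = fl τ p.1`),
`E' = p.2 + ε` (translation), Tonelli again: `= ofReal (K c) ∫_(bx) V (PhiN ..)`. For `ngM H`: left invariance of `mG` (`ngM`). `mW R ≤ mG × volume`. In total the constant is `R^(4 + C' z2) K c/‖det‖ ≤ R^(4 + C' z2) K C ≤ R^(4 + (C' + 1) z2)`. -/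
def DN4_stmt : Prop := DON_stmt

end

end Pool.Agent.VN
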