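import Pool.Agent.helper74.VN.Defs
import Pool.Agent.helper84.VQ.Spec4b
import Pool.Agent.helper93.VQ.Spec4c

/-!
# Project VN (MP_07c750_an), block 4a: rigidity and shadowing for ALL negatively curved metrics; rows `vn:XX4`

FINITE DIFFERENCES of two orbits (energies `E`, `E'`): `X(t) = (fl E t g)⁻¹ * fl E' t g' = [[a, b], [c, d]]` (`VQ.Xt`), `x = a - d`. With `rho, kap, n1` at the first orbit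
  `J = -rho (b + c)` (`JX`),   `W = (b - c) - n1/(2 rho²) (b + c) - kap x/rho` (`WX`),   `N = |J| + |W|` (`NX`).
Up to `O(nm X ^ 2 + |E' - E|)`: `J' = rho² W`, `W' = - rho² Kg J` (Jacobi equation, `-Kg ≥ k > 0`), so `Q = J W` is increasing: `Q' ≥ c N² - ..`: THE ONLY SOURCE OF HYPERBOLICITY. `J, W` do not change in first order under a time shift, so the flow component `x` is removed by a time shift after each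
unit of time (CENTRED: `a = d > 0`) and `nm X ≤ K (N + ε)` during the next unit.
RIGIDITY (RN4): two pseudo-orbits with jumps `ε` with the same ends which stay close (this comes from the detection) satisfy `Σ N_i² ≤ K ε Σ N_i + K n ε²`, so `N_i ≤ K ε √n`.

RULES. Row `vn:XX4`: file `Pool/Agent/<seat>/VN/XX4.lean`, `import Pool.Agent.helper84.VN.Spec4n`, `set_option autoImplicit false`, namespace `Pool.Agent.VN`, `open Pool.Agent.RS Pool.Agent.VQ`, `open Pool.Agent.VQE (nm)`, auxiliary lemmas prefixed `XX4_`,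
theorem `XX4_proof (h..) : XX4_stmt` (rows listed in `from` may be used as hypotheses `(h : YY4_stmt)`; rows of VQ, VQE as `(h : VQ.YYY_stmt)`). No `convert`, `congr!`, `native_decide`, no double quotes, no `private`. Useful files: `Pool/Agent/helper14/VQE/NMB.lean` (`nm`), `Pool/Agent/helper77/VQ/GR4.lean`, `helper43/VQ/PD4.lean`,
`helper43/VQ/SH4.lean`, `helper25/VQ/SA4.lean`, `helper78/VQ/SB4.lean`, `helper77/VQ/SP4.lean`, `helper40/VQ/RE4.lean`, `helper84/VQ/DI4.lean`, `helper44/VQ/SD4.lean` (the corresponding rows of VQ).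
-/

open scoped MatrixGroups ContDiff Topology UpperHalfPlane ComplexConjugate ENNReal
open UpperHalfPlane MeasureTheory Filter Set

namespace Pool.Agent.VN

open Pool.Agent.RS Pool.Agent.VQ
open Pool.Agent.VQE (nm)

noncomputable section

/-- everything which is used of the fields and of the flow; `C` depends on `k`, `B` -/
structure FNE (k C : ℝ) (D : Dyn) : Prop where
  k0 : 0 < k
  C1 : 1 ≤ C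
  ro : ∀ (E : ℝ) (g : SL(2, ℝ)), |E| ≤ k → 1 / C ≤ rho D.U E g ∧ rho D.U E g ≤ C
  ka : ∀ (E : ℝ) (g : SL(2, ℝ)), |E| ≤ k → |kap D.U E g| ≤ C
  nb : ∀ g : SL(2, ℝ), |n1 D.U g| ≤ C ∧ |n2 D.U g| ≤ C ∧ ∀ i j, |hess D.U g i j| ≤ C
  kg : ∀ (E : ℝ) (g : SL(2, ℝ)), |E| ≤ k → 1 / C ≤ -Kg D.U E g ∧ -Kg D.U E g ≤ C
  lr : ∀ (E E' : ℝ) (g x : SL(2, ℝ)), |E| ≤ k → |E'| ≤ k → |rho D.U E' (g * x) - rho D.U E g| ≤ C * (nm x + |E' - E|)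
  lk : ∀ (E E' : ℝ) (g x : SL(2, ℝ)), |E| ≤ k → |E'| ≤ k → |kap D.U E' (g * x) - kap D.U E g| ≤ C * (nm x + |E' - E|)
  ln : ∀ g x : SL(2, ℝ), |n1 D.U (g * x) - n1 D.U g| ≤ C * nm x
  tr : ∀ (E E' : ℝ) (g x : SL(2, ℝ)), |E| ≤ k → |E'| ≤ k → nm x ≤ 1 / 10 →
    |rho D.U E' (g * x) - rho D.U E g - dr D.U E g (x.1 0 0 - x.1 1 1) (x.1 0 1) (x.1 1 0)| ≤ C * (nm x ^ 2 + |E' - E|)
  tk : ∀ (E E' : ℝ) (g x : SL(2, ℝ)), |E| ≤ k → |E'| ≤ k → nm x ≤ 1 / 10 →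
    |kap D.U E' (g * x) - kap D.U E g - dk D.U E g (x.1 0 0 - x.1 1 1) (x.1 0 1) (x.1 1 0)| ≤ C * (nm x ^ 2 + |E' - E|)
  dn : ∀ (E t : ℝ) (g : SL(2, ℝ)), |E| ≤ k → HasDerivAt (fun s => rho D.U E (D.fl E s g)) (n1 D.U (D.fl E t g) / 2) t ∧
    HasDerivAt (fun s => n1 D.U (D.fl E s g)) (hess D.U (D.fl E t g) 0 0 * rho D.U E (D.fl E t g) + kap D.U E (D.fl E t g) * n2 D.U (D.fl E t g)) t ∧
    HasDerivAt (fun s => n2 D.U (D.fl E s g)) (hess D.U (D.fl E t g) 1 0 * rho D.U E (D.fl E t g) - kap D.U E (D.fl E t g) * n1 D.U (D.fl E t g)) t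
  zero : ∀ (E : ℝ) (g : SL(2, ℝ)), D.fl E 0 g = g
  add : ∀ (E s t : ℝ) (g : SL(2, ℝ)), |E| ≤ k → D.fl E (s + t) g = D.fl E s (D.fl E t g)
  neg : ∀ (E t : ℝ) (g : SL(2, ℝ)), |E| ≤ k → D.fl E t (-g) = -D.fl E t g
  cont : ContinuousOn (fun p : ℝ × ℝ × SL(2, ℝ) => D.fl p.1 p.2.1 p.2.2) {p | |p.1| ≤ k}
  der : ∀ (E t : ℝ) (g : SL(2, ℝ)), |E| ≤ k → ∀ i j, HasDerivAt (fun s => (D.fl E s g).1 i j) (((D.fl E t g).1 * XX D.U E (D.fl E t g)) i j) t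

/-- `J` of the difference `x` at `(g, E)` -/
def JX (U : ℍ → ℝ) (E : ℝ) (g x : SL(2, ℝ)) : ℝ := Jc U E g (x.1 0 1) (x.1 1 0)

/-- `W` of the difference `x` at `(g, E)` -/
def WX (U : ℍ → ℝ) (E : ℝ) (g x : SL(2, ℝ)) : ℝ := Wc U E g (x.1 0 0 - x.1 1 1) (x.1 0 1) (x.1 1 0)

/-- `N = |J| + |W|` -/
def NX (U : ℍ → ℝ) (E : ℝ) (g x : SL(2, ℝ)) : ℝ := |JX U E g x| + |WX U E g x|

/-! ## 1. The fields -/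

/-- **Row FN4** (medium; from block FL (helper80: LPZ, FLA for `OKG`), VDN/VDG (helper74 SpecB, helper80 SpecFL)). `8k ≤ U ≤ 1/k`, `|E| ≤ k`: `rho ∈ [√(6k), √(1/k + 2k)]`; `n1, n2, hess` are bounded by the norms of the first and second derivative of `Ug U g` (`≤ 1/k`). `kg`: `PotN.neg` (`k ≤ -Kg`) and the bounds. `lr`, `lk`, `ln` for `nm x ≤ 1/10`:
`Ug U (g x) v = Ug U g (m v)`, `m` the Möbius map of `x` with `|m 0|, |m'(0) - 1| ≤ 4 nm x` (as in `Pool/Agent/helper90/VQ/FE4.lean`, helper93's RFF); for `nm x > 1/10` sup bounds. `tr`, `tk`: the curve `s ↦ x_s` from `1` to `x` (entries `s x₀₁`, `s x₁₀`, `1 + s (x₀₀ - 1)`, fourth entry from `det = 1`) has the left derivative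
`ω_s = (x₀₀ - x₁₁, x₀₁, x₁₀) + O(nm x ^ 2)`; by VDN `d/ds rho(g x_s) = dr(g x_s; ω_s) = dr(g; x₀₀ - x₁₁, x₀₁, x₁₀) + O(nm x ^ 2)` (the coefficients of `dr`, `dk` are Lipschitz: derivatives of order `≤ 3`); the change of the energy costs `C |E' - E|`. `dn`: VDN along the orbit (`x = rho`, `b = kap/2`, `c = -kap/2`). -/
def FN4_stmt : Prop := ∀ Γ : Subgroup SL(2, ℝ), QU.SurfaceGroup Γ → ∀ (k : ℝ) (B : ℕ → ℝ), 0 < k → ∃ C : ℝ, ∀ D : Dyn, OKN Γ k B D → FNE k C D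

/-! ## 2. Two orbits -/

/-- **Row PN4** (short: copy helper43/VQ/PD4.lean). -/
def PN4_stmt : Prop := ∀ (k C : ℝ) (D : Dyn), FNE k C D → ∀ (E E' t : ℝ) (g g' : SL(2, ℝ)), |E| ≤ k → |E'| ≤ k →
  ∀ r κ r' κ' : ℝ, r = rho D.U E (D.fl E t g) → κ = kap D.U E (D.fl E t g) → r' = rho D.U E' (D.fl E' t g') → κ' = kap D.U E' (D.fl E' t g') →
  HasDerivAt (fun s => (Xt D E E' g g' s).1 0 0) ((r' - r) / 2 * (Xt D E E' g g' t).1 0 0 - (κ' * (Xt D E E' g g' t).1 0 1 + κ * (Xt D E E' g g' t).1 1 0) / 2) t ∧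
  HasDerivAt (fun s => (Xt D E E' g g' s).1 0 1) (-((r + r') / 2 * (Xt D E E' g g' t).1 0 1) + (κ' * (Xt D E E' g g' t).1 0 0 - κ * (Xt D E E' g g' t).1 1 1) / 2) t ∧
  HasDerivAt (fun s => (Xt D E E' g g' s).1 1 0) ((r + r') / 2 * (Xt D E E' g g' t).1 1 0 + (κ * (Xt D E E' g g' t).1 0 0 - κ' * (Xt D E E' g g' t).1 1 1) / 2) t ∧
  HasDerivAt (fun s => (Xt D E E' g g' s).1 1 1) (-((r' - r) / 2 * (Xt D E E' g g' t).1 1 1) + (κ' * (Xt D E E' g g' t).1 1 0 + κ * (Xt D E E' g g' t).1 0 1) / 2) t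

/-- **Row GN4** (Gronwall; short-medium: as helper77/VQ/GR4.lean; from PN4). `u = X - 1`: `u' = u XX' - XX u + (XX' - XX)`, the entries of `XX, XX'` are bounded by `C`, `|XX' - XX| ≤ 2C (nm X + ε)` (`lr`, `lk`). -/
def GN4_stmt : Prop := ∀ k C : ℝ, ∃ K : ℝ, 1 ≤ K ∧ ∀ D : Dyn, FNE k C D → ∀ (E E' t ε : ℝ) (g g' : SL(2, ℝ)), |E| ≤ k → |E'| ≤ k → |E' - E| ≤ ε →
  nm (Xt D E E' g g' t) ≤ (nm (g⁻¹ * g') + ε) * Real.exp (K * |t|)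

/-- **Row SN4** (short times, second order; short-medium). `Θ(s) = g⁻¹ fl E s g`, `Θ' = Θ XX(s)`, `Θ(0) = 1`: `nm Θ ≤ K |s|` (Gronwall), `|Θ' - XX(0)| ≤ |(Θ - 1) XX(s)| + |XX(s) - XX(0)| ≤ K |s|` (`lr`, `lk` with `x = Θ(s)`), integrate. -/
def SN4_stmt : Prop := ∀ k C : ℝ, ∃ K : ℝ, 1 ≤ K ∧ ∀ D : Dyn, FNE k C D → ∀ (E s : ℝ) (g θ : SL(2, ℝ)), |E| ≤ k → |s| ≤ 1 / K → θ = g⁻¹ * D.fl E s g →
  nm θ ≤ K * |s| ∧ |θ.1 0 0 - 1 - rho D.U E g * s / 2| ≤ K * s ^ 2 ∧ |θ.1 1 1 - 1 + rho D.U E g * s / 2| ≤ K * s ^ 2 ∧ |θ.1 0 1 - kap D.U E g * s / 2| ≤ K * s ^ 2 ∧ |θ.1 1 0 + kap D.U E g * s / 2| ≤ K * s ^ 2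

/-- **Row JW4** (THE JACOBI EQUATION; medium; from PN4). `(a-d)' = Δr (a+d)/2 - (κ+κ')(b+c)/2`, `(b+c)' = -(r+r')/2 (b-c) + (κ+κ')(a-d)/2`, `(b-c)' = -(r+r')/2 (b+c) + Δκ (a+d)/2` (PN4), `Δr = dr(x,b,c) + O(nm² + e)`, `Δκ = dk(x,b,c) + O(nm² + e)` (`tr`, `tk` with `g := fl E t g`, `x := X(t)`, `e = |E' - E|`), `a + d = 2 + O(nm²)` (`det = 1`):
`x' = dr - κ(b+c) + O`, `(b+c)' = -r(b-c) + κx + O`, `(b-c)' = -r(b+c) + dk + O`. With `r' = n1/2`, `n1' = hess₀₀ r + κ n2`, `n2' = hess₁₀ r - κ n1`, `κ = n2/(2r)` (`dn`; derivative of `kap` from its definition) the terms of first order give EXACTLY `J' = r² W`, `W' = -r² Kg J` (`field_simp; ring`, checked with rational numbers). -/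
def JW4_stmt : Prop := ∀ k C : ℝ, ∃ K : ℝ, 1 ≤ K ∧ ∀ D : Dyn, FNE k C D → ∀ (E E' t : ℝ) (g g' : SL(2, ℝ)), |E| ≤ k → |E'| ≤ k → nm (Xt D E E' g g' t) ≤ 1 / 10 →
  ∃ j' w' x' : ℝ, HasDerivAt (fun s => JX D.U E (D.fl E s g) (Xt D E E' g g' s)) j' t ∧ HasDerivAt (fun s => WX D.U E (D.fl E s g) (Xt D E E' g g' s)) w' t ∧
    HasDerivAt (fun s => (Xt D E E' g g' s).1 0 0 - (Xt D E E' g g' s).1 1 1) x' t ∧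
    |j' - rho D.U E (D.fl E t g) ^ 2 * WX D.U E (D.fl E t g) (Xt D E E' g g' t)| ≤ K * (nm (Xt D E E' g g' t) ^ 2 + |E' - E|) ∧
    |w' + rho D.U E (D.fl E t g) ^ 2 * Kg D.U E (D.fl E t g) * JX D.U E (D.fl E t g) (Xt D E E' g g' t)| ≤ K * (nm (Xt D E E' g g' t) ^ 2 + |E' - E|) ∧
    |x'| ≤ K * (nm (Xt D E E' g g' t) + |E' - E|)

/-- **Row CN4** (comparison; short-medium; from SN4). (1) `|J|, |W| ≤ K nm x`. (2) `b + c = -J/rho`, `b - c = W + n1/(2rho²)(b+c) + kap (a-d)/rho`, and `(a+d)² = (a-d)² + 4(1+bc)`, so `|a-1|, |d-1| ≤ |a-d| + |b| + |c|`. (3) jumps: `x₁ = y⁻¹ x y'` at the point `(g y, E₁)`: the entries change by `O(nm y + nm y')`, the coefficients by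
`O(nm y + |E₁ - E|)` (`lr`, `lk`, `ln`). (4) time shift `x Θ`, `Θ = (g x)⁻¹ fl E' s (g x)` (SN4): `b + c` changes by `Θ₀₁ + Θ₁₀ + O(nm x |s|) = O(|s|(nm x + |s|))`; `b - c` by `κ' s + O`, `a - d` by `r' s + O` (`r', κ'` at `(g x, E')`), so `W` by `κ' s - κ r' s/r + O = O(|s| (nm x + |s| + |E' - E|))`. -/
def CN4_stmt : Prop := ∀ k C : ℝ, ∃ K : ℝ, 1 ≤ K ∧ ∀ D : Dyn, FNE k C D →
  (∀ (E : ℝ) (g x : SL(2, ℝ)), |E| ≤ k → nm x ≤ 1 / K → NX D.U E g x ≤ K * nm x ∧ nm x ≤ K * (NX D.U E g x + |x.1 0 0 - x.1 1 1|)) ∧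
  (∀ (E E1 : ℝ) (g x y y' : SL(2, ℝ)), |E| ≤ k → |E1| ≤ k → nm x ≤ 1 / K → nm y ≤ 1 / K → nm y' ≤ 1 / K →
    |JX D.U E1 (g * y) (y⁻¹ * x * y') - JX D.U E g x| ≤ K * (nm y + nm y' + |E1 - E|) ∧ |WX D.U E1 (g * y) (y⁻¹ * x * y') - WX D.U E g x| ≤ K * (nm y + nm y' + |E1 - E|) ∧
    nm (y⁻¹ * x * y') ≤ K * (nm x + nm y + nm y')) ∧
  ∀ (E E' s : ℝ) (g x z : SL(2, ℝ)), |E| ≤ k → |E'| ≤ k → nm x ≤ 1 / K → |s| ≤ 1 / K → z = g⁻¹ * D.fl E' s (g * x) →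
    |JX D.U E g z - JX D.U E g x| ≤ K * (|s| * (nm x + |s| + |E' - E|)) ∧ |WX D.U E g z - WX D.U E g x| ≤ K * (|s| * (nm x + |s| + |E' - E|)) ∧ nm z ≤ K * (nm x + |s|)

/-- **Row UR4** (recentering; medium: as helper78/VQ/SB4.lean; from SN4). `z(s) = g⁻¹ fl E' s g' = x Θ(s)`, `f(s) = z₀₀ - z₁₁`, `f' = r'(z₀₀ + z₁₁)/2 - κ'(z₀₁ + z₁₀)/2 ≥ 1/(2C)` for `nm x ≤ 1/K`, `|s| ≤ 1/K` (`nm z(s)` is small, SN4): mean value theorem for the second part; intermediate value theorem on `|s| ≤ 2C |x₀₀ - x₁₁|` for the first.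
(By the second part with `s` or `s'` equal to `0`: `z(s)` centred implies `|s| ≤ K |x₀₀ - x₁₁|`; the centring shift is unique.) -/
def UR4_stmt : Prop := ∀ k C : ℝ, ∃ K : ℝ, 1 ≤ K ∧ ∀ D : Dyn, FNE k C D → ∀ (E' : ℝ) (g g' x : SL(2, ℝ)), |E'| ≤ k → x = g⁻¹ * g' → nm x ≤ 1 / K →
  (∃ (s : ℝ) (z : SL(2, ℝ)), z = g⁻¹ * D.fl E' s g' ∧ |s| ≤ K * |x.1 0 0 - x.1 1 1| ∧ z.1 0 0 = z.1 1 1 ∧ 0 < z.1 0 0) ∧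
  ∀ s s' : ℝ, -(1 / K) ≤ s → s ≤ s' → s' ≤ 1 / K →
    (s' - s) / K ≤ ((g⁻¹ * D.fl E' s' g').1 0 0 - (g⁻¹ * D.fl E' s' g').1 1 1) - ((g⁻¹ * D.fl E' s g').1 0 0 - (g⁻¹ * D.fl E' s g').1 1 1)

/-! ## 3. One unit of time -/

/-- **Row UA4** (one unit of the flow from a centred difference; medium; from GN4, JW4, CN4). `N0 = NX (g) x`. `nm x ≤ K₁ N0` (CN4, centred), so `nm X(s) ≤ M := K₂(N0 + ε)` for `0 ≤ s ≤ t` (GN4), and by JW4 `|J' - r²W|, |W' + r²Kg J| ≤ δ₁ := K₃(M² + ε)`. The vector `(J, W)` satisfies `|(J,W)'| ≤ K₄|(J,W)| + δ₁`, so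
`N(s) ≥ e^(-2K₄) N0/2 - K₄δ₁` (Gronwall backwards) and `N(s) ≤ K₅ M`. `Q' = J'W + JW' ≥ r²W² + r²(-Kg)J² - δ₁N(s) ≥ c₀N(s)² - δ₁N(s)`, bounded below by the constant `μ = c₁N0² - K₆(ε N0 + ε² + N0³)`; mean value theorem (`Q(s) - μs` is nondecreasing); `N0³ ≤ N0²/K`. -/
def UA4_stmt : Prop := ∀ k C : ℝ, ∃ K : ℝ, 1 ≤ K ∧ ∀ D : Dyn, FNE k C D → ∀ (E E' t ε J0 W0 N0 J1 W1 : ℝ) (g g' x y : SL(2, ℝ)), |E| ≤ k → |E'| ≤ k → |E' - E| ≤ ε → 1 ≤ t → t ≤ 2 →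
  x = g⁻¹ * g' → y = Xt D E E' g g' t → x.1 0 0 = x.1 1 1 → 0 < x.1 0 0 → nm x ≤ 1 / K → J0 = JX D.U E g x → W0 = WX D.U E g x → N0 = NX D.U E g x → K * (N0 + ε) ≤ 1 →
  J1 = JX D.U E (D.fl E t g) y → W1 = WX D.U E (D.fl E t g) y →
  nm y ≤ K * (N0 + ε) ∧ N0 ≤ K * (|J1| + |W1| + ε) ∧ |J1| + |W1| ≤ K * (N0 + ε) ∧ J0 * W0 + N0 ^ 2 / K - K * (ε * N0 + ε ^ 2) ≤ J1 * W1

/-- **Row UB4** (signs; medium; from GN4, JW4, CN4). Notation of UA4, `δ₁ = K₃((K₂(N0 + ε))² + ε) ≤ K₇(N0² + ε)`. `η(s) = δ₁ e^(Ls)`, `L ≥ C⁴ + 1`: `y = J + η`, `z = W + η` satisfy `y' ≥ r² z`, `z' ≥ r²(-Kg) y` and start positive, so both stay positive (look at the first zero: before it both are nondecreasing), are nondecreasing and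
`y(t) ≥ y(0) + c₀ t z(0)`, `z(t) ≥ z(0) + c₀ t y(0)`, `c₀ = C⁻³`. Hence `J(t), W(t) ≥ c₀(J0 + W0) - K δ₁` and `J(t) + W(t) ≥ (1 + c₀)(J0 + W0) - K δ₁`. For `J0, W0 ≤ 0` the same with `-J, -W` (or with the functions `η - J`, `η - W`). -/
def UB4_stmt : Prop := ∀ k C : ℝ, ∃ K : ℝ, 1 ≤ K ∧ ∀ D : Dyn, FNE k C D → ∀ (E E' t ε J0 W0 N0 J1 W1 σ : ℝ) (g g' x y : SL(2, ℝ)), |E| ≤ k → |E'| ≤ k → |E' - E| ≤ ε → 1 ≤ t → t ≤ 2 → (σ = 1 ∨ σ = -1) →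
  x = g⁻¹ * g' → y = Xt D E E' g g' t → x.1 0 0 = x.1 1 1 → 0 < x.1 0 0 → nm x ≤ 1 / K → J0 = JX D.U E g x → W0 = WX D.U E g x → N0 = NX D.U E g x → K * (N0 + ε) ≤ 1 →
  J1 = JX D.U E (D.fl E t g) y → W1 = WX D.U E (D.fl E t g) y → 0 ≤ σ * J0 → 0 ≤ σ * W0 →
  σ * (J0 + W0) / K - K * (N0 ^ 2 + ε) ≤ σ * J1 ∧ σ * (J0 + W0) / K - K * (N0 ^ 2 + ε) ≤ σ * W1 ∧ (1 + 1 / K) * (σ * (J0 + W0)) - K * (N0 ^ 2 + ε) ≤ σ * (J1 + W1)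

/-- **Row US4** (THE UNIT STEP with jumps and time shift; medium: as helper77/VQ/SP4.lean; from GN4, CN4, UR4, UA4, UB4). `ĝ = fl E' S g'`, `y = Xt D E E' g ĝ t` (UA4, UB4 for `(g, ĝ)`). `ĝ1 = fl E1' S g1'`, `g1⁻¹ ĝ1 = n₁⁻¹ y n₂`, `n₁ = (fl E t g)⁻¹ g1`, `n₂ = (fl E' S (fl E' t g'))⁻¹ fl E1' S g1'`, `nm n₂ ≤ 2 ε e^(K|S|)` (GN4). CN4 (jumps): `J, W` change
by `O(ε)`; UR4 for `(g1, ĝ1, E1')`: `|s| ≤ K nm ≤ K(N0 + ε)`, CN4 (time shift): `J, W` change by `O((N0 + ε)²)`. So `J1, W1` differ from those of UA4 by `O(ε + N0²)` and `Q` by `O((N0 + ε)(ε + N0²)) = O(ε N0 + ε² + N0³)`; `N0³` is absorbed. Signs: if `K ε ≤ σ(J0 + W0) = N0` then `K'(N0² + ε) ≤ N0/(2K'')`. -/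
def US4_stmt : Prop := ∀ k C : ℝ, ∃ K : ℝ, 1 ≤ K ∧ ∀ D : Dyn, FNE k C D → ∀ (t ε S E E' E1 E1' J0 W0 N0 : ℝ) (g g' g1 g1' x : SL(2, ℝ)), 1 ≤ t → t ≤ 2 → 0 ≤ ε → |S| ≤ 1 / K →
  |E| ≤ k → |E'| ≤ k → |E1| ≤ k → |E1'| ≤ k → |E' - E| ≤ ε → |E1 - E| ≤ ε → |E1' - E'| ≤ ε → nm ((D.fl E t g)⁻¹ * g1) ≤ ε → nm ((D.fl E' t g')⁻¹ * g1') ≤ ε →
  x = g⁻¹ * D.fl E' S g' → x.1 0 0 = x.1 1 1 → 0 < x.1 0 0 → nm x ≤ 1 / K → J0 = JX D.U E g x → W0 = WX D.U E g x → N0 = NX D.U E g x → K * (N0 + ε) ≤ 1 →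
  ∃ (S1 J1 W1 : ℝ) (z : SL(2, ℝ)), z = g1⁻¹ * D.fl E1' S1 g1' ∧ |S1 - S| ≤ K * (N0 + ε) ∧ z.1 0 0 = z.1 1 1 ∧ 0 < z.1 0 0 ∧ J1 = JX D.U E1 g1 z ∧ W1 = WX D.U E1 g1 z ∧
    nm z ≤ K * (N0 + ε) ∧ |J1| + |W1| ≤ K * (N0 + ε) ∧ N0 ≤ K * (|J1| + |W1| + ε) ∧ J0 * W0 + N0 ^ 2 / K - K * (ε * N0 + ε ^ 2) ≤ J1 * W1 ∧
    ∀ σ : ℝ, (σ = 1 ∨ σ = -1) → 0 ≤ σ * J0 → 0 ≤ σ * W0 → K * ε ≤ N0 → 0 ≤ σ * J1 ∧ 0 ≤ σ * W1 ∧ N0 / K ≤ σ * J1 ∧ (1 + 1 / K) * N0 ≤ |J1| + |W1|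

/-! ## 4. Two pseudo-orbits (`PO D (4 * k) t ε n w`: energies at most `k`) -/

/-- **Row QS4** (sums; short-medium; PURE). `A = Σ_(i ≤ n) N_i²`. Telescoping: `Σ_(i<n) N_i²/K ≤ Q_n - Q_0 + Kε Σ N_i + Knε²`, `N_n² ≤ 2K²(N_(n-1)² + ε²)`, so `A ≤ K₁(Q_n - Q_0) + K₁ε √((n+1)A) + K₁(n+1)ε²`, and the hypothesis on `Q_n` gives `A ≤ A/2 + ..` if `μ = 1/(4K(1 + 2K²))`: `A ≤ K₂ (n+1) ε²`. Then `N_i ≤ √A ≤ K₂ (n+1) ε`,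
`Σ N_i ≤ √((n+1) A) ≤ K₂ (n+1) ε`. -/
def QS4_stmt : Prop := ∀ K : ℝ, 1 ≤ K → ∃ μ K' : ℝ, 0 < μ ∧ 1 ≤ K' ∧ ∀ (n : ℕ) (ε : ℝ) (N Q : ℕ → ℝ), 1 ≤ n → 0 ≤ ε → (∀ i ≤ n, 0 ≤ N i) →
  (∀ i < n, N (i + 1) ≤ K * (N i + ε) ∧ Q i + N i ^ 2 / K - K * (ε * N i + ε ^ 2) ≤ Q (i + 1)) → 0 ≤ Q 0 → Q n ≤ μ * (∑ i ∈ Finset.range (n + 1), N i ^ 2) + K * ((n + 1) * ε ^ 2) →
  (∀ i ≤ n, N i ≤ K' * ((n + 1) * ε)) ∧ ∑ i ∈ Finset.range (n + 1), N i ≤ K' * ((n + 1) * ε)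

/-- **Row RN4** (RIGIDITY; medium; from CN4, UR4, US4, QS4; compare helper40/VQ/RE4.lean, helper84/VQ/DI4.lean). Signs first: if `D_i = (w i)⁻¹ (w' i)` is within `1/K` of `+1` then so is `D_(i+1)` (GN4: `nm ≤ (nm D_i + ε) e^(2K₁) + ..` excludes `-1`), so `nm D_i ≤ 1/K` for all `i` (start `D_0 = 1`), and `D_n = ± 1` gives `D_n = 1`. Shifts by induction: `S_0 = 0`; given a
centred `z_i = zz D w w' (S i) i` with `|S i| ≤ 1/K₁`: UR4 (second part, `x = D_i`) `|S i| ≤ K₁ · 2 nm D_i` (small), `N_i ≤ K₁ nm z_i ≤ K₁²(nm D_i + |S i|)` (CN4) is small, US4 gives `S (i+1)`. At the end `D_n = 1`, `|S n| ≤ K₁ · 0 = 0`, so `z_n = 1`, `Q_n = 0`; `Q_0 = 0`. QS4: `N_i ≤ K₂(n+1)ε`, `|S i| ≤ Σ K₁(N_i + ε) ≤ K₃(n+1)ε`,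
`nm D_i ≤ K(nm z_i + |S i|)` (`D_i` is `z_i` shifted back by `-S i`: CN4). -/
def RN4_stmt : Prop := ∀ k C : ℝ, ∃ K : ℝ, 1 ≤ K ∧ ∀ D : Dyn, FNE k C D → ∀ (t ε : ℝ) (n : ℕ) (w w' : ℕ → SL(2, ℝ) × ℝ), 1 ≤ t → t ≤ 2 → 0 < ε → K * ((n + 1) * ε) ≤ 1 →
  PO D (4 * k) t ε n w → PO D (4 * k) t ε n w' → (∀ i ≤ n, |(w' i).2 - (w i).2| ≤ ε) →
  (∀ i ≤ n, nm ((w i).1⁻¹ * (w' i).1) ≤ 1 / K ∨ nm (-((w i).1⁻¹ * (w' i).1)) ≤ 1 / K) → (w' 0).1 = (w 0).1 → ((w' n).1 = (w n).1 ∨ (w' n).1 = -(w n).1) →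
  ∀ i ≤ n, nm ((w i).1⁻¹ * (w' i).1) ≤ K * ((n + 1) * ε)

/-- **Row SW4** (SIGNS AND SHADOWING; medium; from CN4, UR4, US4, QS4; compare helper84/VQ/DI4.lean). Start `D_0 = kM θ`: centred, `J_0 = 0`, `W_0 = 2 sin θ`, `S_0 = 0`. Shifts `S_i`, centred `z_i` as in RN4 (all `nm D_i` are small); `S_n = S`, `z_n = z` by uniqueness (UR4). `J_n = -ρ(z₀₁ + z₁₀)`.
(1) `J_n = 0`: `Q_n = 0 = Q_0`, QS4: `N_i ≤ K₂(n+1)ε`, `|S_i| ≤ Σ K₁(N_i + ε)`. `W_0 = 2 sin θ` gives the bound of `θ`. (2) `|θ| ≥ K(n+1)ε`, `σ = sign θ`: by US4 and induction `σJ_i, σW_i ≥ 0`, `N_(i+1) ≥ (1 + 1/K₁) N_i ≥ |θ|`, and `σJ_n ≥ N_(n-1)/K₁ > 0` (`n ≥ 1`). -/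
def SW4_stmt : Prop := ∀ k C : ℝ, ∃ K : ℝ, 1 ≤ K ∧ ∀ D : Dyn, FNE k C D → ∀ (t ε θ S : ℝ) (n : ℕ) (w w' : ℕ → SL(2, ℝ) × ℝ) (z : SL(2, ℝ)), 1 ≤ t → t ≤ 2 → 0 < ε → 1 ≤ n → K * ((n + 1) * ε) ≤ 1 →
  PO D (4 * k) t ε n w → PO D (4 * k) t ε n w' → (∀ i ≤ n, |(w' i).2 - (w i).2| ≤ ε) → (∀ i ≤ n, nm ((w i).1⁻¹ * (w' i).1) ≤ 1 / K) → (w 0).1⁻¹ * (w' 0).1 = kM θ → |θ| ≤ 1 / K →
  |S| ≤ 1 / K → z = zz D w w' S n → z.1 0 0 = z.1 1 1 →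
  (z.1 0 1 + z.1 1 0 = 0 → nm z ≤ K * ((n + 1) * ε) ∧ |S| ≤ K * ((n + 1) * ε) ∧ |θ| ≤ K * ((n + 1) * ε)) ∧
  (K * ((n + 1) * ε) ≤ |θ| → θ * (z.1 0 1 + z.1 1 0) < 0)

/-- **Row CT4** (intermediate values along an implicit curve; short-medium; PURE). The zero `s(θ)` of `ψ θ` is unique and depends continuously on `θ` (compactness: every limit of zeros is a zero; or directly with the signs of `ψ θ (s(θ₀) ± η)`); `θ ↦ h θ (s(θ))` is continuous and changes its sign. -/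
def CT4_stmt : Prop := ∀ (ρ σ : ℝ) (ψ h : ℝ → ℝ → ℝ), 0 < ρ → 0 < σ → ContinuousOn (Function.uncurry ψ) (Icc (-ρ) ρ ×ˢ Icc (-σ) σ) → ContinuousOn (Function.uncurry h) (Icc (-ρ) ρ ×ˢ Icc (-σ) σ) →
  (∀ θ ∈ Icc (-ρ) ρ, ∀ s ∈ Icc (-σ) σ, ∀ s' ∈ Icc (-σ) σ, s < s' → ψ θ s < ψ θ s') → (∀ θ ∈ Icc (-ρ) ρ, ψ θ (-σ) < 0 ∧ 0 < ψ θ σ) →
  (∀ s ∈ Icc (-σ) σ, ψ (-ρ) s = 0 → 0 < h (-ρ) s) → (∀ s ∈ Icc (-σ) σ, ψ ρ s = 0 → h ρ s < 0) → ∃ θ ∈ Icc (-ρ) ρ, ∃ s ∈ Icc (-σ) σ, ψ θ s = 0 ∧ h θ s = 0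

/-! ## 5. Chains -/

/-- **Row CE4** (pseudo-orbits of chains; short: the proofs of CA4, PO4, CH4 of VQ (helper33, helper77, helper89) only use `zero`, `add`, `neg` of `FE`; here with `FNE`, `d = 4k`). -/
def CE4_stmt : Prop := ∀ (k C : ℝ) (D : Dyn), FNE k C D → ∀ (A : Prm) (R t ε : ℝ) (m N : ℕ) (v : ℕ → SL(2, ℝ) × ℝ), A.sg R = m * t → 1 ≤ m → 1 ≤ A.m → 0 < A.r R → A.r R ≤ 1 / 100 → 3 * A.r R ≤ ε → (∀ E ∈ Wi 2 R, |E| ≤ k) → 1 ≤ N →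
  Ch D A R N v → ∃ w : ℕ → SL(2, ℝ) × ℝ, PO D (4 * k) t ε (N * (A.m * m)) w ∧ w 0 = v 0 ∧ (∀ j ≤ N, Pm (v j) (w (j * (A.m * m)))) ∧ ∀ i ≤ N * (A.m * m), |(w i).2 - (v 0).2| ≤ N * ((A.m + 1) * A.r R)

/-- **Row GF4** (small steps follow the big step; short-medium; from GN4, CE4). For `i = j A.m m + l`, `l ≤ A.m m`: `w i` and `± fl E_j (l t) (v j)` (`E_j = (v j).2`) differ by at most `K (l + 1) 2ε e^(K l t)`: induction on `l` with GN4 (the other orbit is exact). -/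
def GF4_stmt : Prop := ∀ k C : ℝ, ∃ K : ℝ, 1 ≤ K ∧ ∀ D : Dyn, FNE k C D → ∀ (t ε : ℝ) (n : ℕ) (w : ℕ → SL(2, ℝ) × ℝ), 0 ≤ t → 0 ≤ ε → K * ((n + 1) * ε * Real.exp (K * (n * t))) ≤ 1 → PO D (4 * k) t ε n w →
  (∀ i ≤ n, |(w i).2 - (w 0).2| ≤ ε) → ∀ i ≤ n, nm ((D.fl (w 0).2 (i * t) (w 0).1)⁻¹ * (w i).1) ≤ K * ((n + 1) * ε * Real.exp (K * (n * t)))

/-- **Row RB4** (RIGIDITY OF CHAINS OF BIG STEPS; medium; from FN4, RN4, CE4, GF4, AR4 (VQ, pure)). `AR4` with `N`: `k' (= its k), t, ε`; pseudo-orbits `w, w'` of the two chains (CE4). Closeness at all small steps: `w i` follows `± fl E_j (l t) (v j)` (GF4 on the big step `j`, shift the index; `e^(Kτ) ≤ R^(1/10)` by `Adm C A`: `m e3 ≤ 1/C⁴`), so the hypothesis gives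
`nm (± (w i)⁻¹ (w' i)) ≤ 2η₀ ≤ 1/K` for `R ≥ R0`. RN4. Both ends agree up to the sign. -/
def RB4_stmt : Prop := ∀ Γ : Subgroup SL(2, ℝ), QU.SurfaceGroup Γ → ∀ (k : ℝ) (B : ℕ → ℝ), 0 < k → ∃ C η0 : ℝ, 10 ≤ C ∧ 0 < η0 ∧ ∀ (A : Prm) (N : ℕ), Adm C A → 1 ≤ N → ∃ R0 : ℝ, 1 ≤ R0 ∧ ∀ (R : ℝ) (D : Dyn), R0 ≤ R → OKN Γ k B D →
  ∀ v v' : ℕ → SL(2, ℝ) × ℝ, Ch D A R N v → Ch D A R N v' → v' 0 = v 0 → v' N = v N →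
  (∀ j < N, ∀ s : ℝ, 0 ≤ s → s ≤ A.tu R → nm ((D.fl (v j).2 s (v j).1)⁻¹ * D.fl (v' j).2 s (v' j).1) ≤ η0 ∨ nm (-((D.fl (v j).2 s (v j).1)⁻¹ * D.fl (v' j).2 s (v' j).1)) ≤ η0) →
  ∀ j ≤ N, (nm ((v j).1⁻¹ * (v' j).1) ≤ R ^ (-(1 / 2) + 3 / 2 * A.z2) ∨ nm (-((v j).1⁻¹ * (v' j).1)) ≤ R ^ (-(1 / 2) + 3 / 2 * A.z2)) ∧ |(v j).2 - (v' j).2| ≤ R ^ (-(1 / 2) + 3 / 2 * A.z2)

/-- **Row J64** (jumps of the big steps; short-medium; from FN4, CE4 (`N = 1`), GF4, AR4). `K (n+1) ε e^(K n t) ≤ R^(-1/2 + z2 + 1/10) < R^(-1/5)` for `R ≥ R0` (`n t = τ = m e3 log R`, `m e3 ≤ 1/C⁴`, `K/C⁴ ≤ 1/20`). The signs: `Bo` contains both. -/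
def J64_stmt : Prop := ∀ Γ : Subgroup SL(2, ℝ), QU.SurfaceGroup Γ → ∀ (k : ℝ) (B : ℕ → ℝ), 0 < k → ∃ C : ℝ, 10 ≤ C ∧ ∀ A : Prm, Adm C A → ∃ R0 : ℝ, 1 ≤ R0 ∧ ∀ (R : ℝ) (D : Dyn), R0 ≤ R → OKN Γ k B D →
  ∀ p q : SL(2, ℝ) × ℝ, Reach D A R p q → Nb (R ^ (-(1 / 5) : ℝ)) (D.ph (A.tu R) p) q ∧ p.2 ∈ Wi 2 R ∧ q.2 ∈ Wi 2 R ∧ |p.2 - q.2| ≤ (A.m + 1) * A.r R

/-- **Row SG4** (SHADOWING; medium; from FN4, GN4, UR4, SW4, CT4, CE4 (`N = 1`), GF4, AR4; compare helper44/VQ/SD4.lean). `w` = pseudo-orbit from `p` to `± q`, `w'_θ i = (fl E_p (i t) (p.1 kM θ), E_p)` (jumps `0`), so `(w 0)⁻¹ (w'_θ 0) = kM θ`; `n = A.m m`, `n t = τ`. For `|θ| ≤ ρ := R^(-1/2 + 3z2/2)` all differences `D_i` are at most `R^(-1/4) ≤ 1/K`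
(GF4 for `w`, GN4 for `w'_θ` against `fl E_p (i t) p.1`; `e^(Kτ) ≤ R^(1/20)`). CT4 with `σ = 1/K'`, `z(θ, s) = (w n)⁻¹ fl E_p (τ + s) (p.1 kM θ)`, `ψ = z₀₀ - z₁₁` (strictly increasing: UR4; signs at `± σ` since `|ψ(θ, 0)| ≤ 2 R^(-1/4)`), `h = z₀₁ + z₁₀` (signs at `θ = ± ρ`: SW4 (2)): there are `θ, s` with `z₀₀ = z₁₁ > 0`, `z₀₁ = -z₁₀`:
`z = kM η'`, and SW4 (1): `nm z, |s|, |θ| ≤ ρ`. `w n = ± q`, `η = -η'`. -/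
def SG4_stmt : Prop := ∀ Γ : Subgroup SL(2, ℝ), QU.SurfaceGroup Γ → ∀ (k : ℝ) (B : ℕ → ℝ), 0 < k → ∃ C : ℝ, 10 ≤ C ∧ ∀ A : Prm, Adm C A → ∃ R0 : ℝ, 1 ≤ R0 ∧ ∀ (R : ℝ) (D : Dyn), R0 ≤ R → OKN Γ k B D →
  ∀ p q : SL(2, ℝ) × ℝ, Reach D A R p q → |q.2 - p.2| ≤ r2 A R ∧ ∃ θ s η : ℝ, |θ| ≤ r2 A R ∧ |s| ≤ r2 A R ∧ |η| ≤ r2 A R ∧
    (q.1 = D.fl p.2 (A.tu R + s) (p.1 * kM θ) * kM η ∨ q.1 = -(D.fl p.2 (A.tu R + s) (p.1 * kM θ) * kM η))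

end

end Pool.Agent.VN
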